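import Pool.Agent.URW.Srf.SubB

/-!
# URW Srf: positions, functoriality

Problem MP_fc0f29_gt; architect helper65.

PROOFS (all by induction over `k`). `pos_adj`: `sub_adj_cases` for `S.it k`: the difference of the positions of the
ends of an edge of `S.sub` is `(1 / 2) • (f y - f x)` for adjacent `x, y`: `(xx, xy)`: `(1/2)(f y - f x)`;
`(xy, xx)`: `(1/2)(f x - f y)`; `(xy, xz)`: `(1/2)(f z - f y)` (`y, z` adjacent by `T_adj`). `pos_conv`:
`pos (k+1) s(x, y) = (1/2)(pos x + pos y)`; take `s = s_x ∪ s_y` and `t v = (1/2)(t_x v [v ∈ s_x] + t_y v [v ∈ s_y])`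
(`Finset.sum_subset`, `Finset.sum_ite_mem`; the induction hypothesis for both). `mp_T`: the four forms are
preserved by `Sym2.map` (`Sym2.map_mk`). `mp_comp`, `mp_id`: `Sym2.map_map`, `Sym2.map_id'`; first prove by
induction that `mp S S f k ∘ mp S S g k = mp S S (f ∘ g) k` as functions. `mp_car`: members of `Sym2.map g e` are the
`g x`, `x` a member of `e` (`Sym2.mem_map`). `mp_pos`: `Sym2.ind`. `mp_io`: `Sym2.map` of a diagonal element.
-/

set_option autoImplicit false

namespace URW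

namespace Srf

variable {S : Srf}

private theorem adj_sym (hS : S.Good) {x y : S.V} (h : S.Adj x y) : S.Adj y x := by
  obtain ⟨z, hz⟩ := h
  exact hS.opp x y z hz

private theorem midp_mk {X E : Type} [AddCommGroup E] [Module ℝ E] (f : X → E) (x y : X) :
    midp f s(x, y) = (1 / 2 : ℝ) • (f x + f y) := rfl

private theorem car_mk (k : ℕ) (x y : (S.it k).V) :
    S.car (k + 1) s(x, y) = S.car k x ∪ S.car k y := by
  ext v
  constructor
  · rintro ⟨z, hz, hv⟩
    rcases Sym2.mem_iff.1 (show z ∈ s(x, y) from hz) with rfl | rfl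
    · exact Or.inl hv
    · exact Or.inr hv
  · rintro (hv | hv)
    · exact ⟨x, Sym2.mem_mk_left x y, hv⟩
    · exact ⟨y, Sym2.mem_mk_right x y, hv⟩

/-- Fine edges are parallel to old edges, shorter by the factor `2 ^ k`. -/
theorem pos_adj (hS : S.Good) {E : Type} [AddCommGroup E] [Module ℝ E] (f : S.V → E) (k : ℕ)
    {p q : (S.it k).V} (h : (S.it k).Adj p q) :
    ∃ x y, S.Adj x y ∧ S.pos f k q - S.pos f k p = (1 / 2 ^ k : ℝ) • (f y - f x) := by
  induction k with
  | zero => exact ⟨p, q, h, by rw [pow_zero, div_one, one_smul]; rfl⟩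
  | succ k ih =>
    have hk : (1 / 2 ^ (k + 1) : ℝ) = (1 / 2) * (1 / 2 ^ k) := by
      rw [pow_succ]
      field_simp
    obtain ⟨x, y, hxy, hc⟩ := sub_adj_cases (hS.it k) h
    rcases hc with ⟨rfl, rfl⟩ | ⟨rfl, rfl⟩ | ⟨z, rfl, rfl, hz⟩
    · obtain ⟨x', y', h1, h2⟩ := ih hxy
      refine ⟨x', y', h1, ?_⟩
      change (1 / 2 : ℝ) • (S.pos f k x + S.pos f k y) -
        (1 / 2 : ℝ) • (S.pos f k x + S.pos f k x) = _
      rw [hk, mul_smul, ← h2]
      module
    · obtain ⟨x', y', h1, h2⟩ := ih hxy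
      refine ⟨y', x', adj_sym hS h1, ?_⟩
      change (1 / 2 : ℝ) • (S.pos f k x + S.pos f k x) -
        (1 / 2 : ℝ) • (S.pos f k x + S.pos f k y) = _
      have h3 : (1 / 2 ^ k : ℝ) • (f x' - f y') = -((1 / 2 ^ k : ℝ) • (f y' - f x')) := by
        rw [← smul_neg, neg_sub]
      rw [hk, mul_smul, h3, ← h2]
      module
    · have hyz : (S.it k).Adj y z := by
        rcases hz with hz | hz
        · exact ⟨x, (hS.it k).rot x y z hz⟩
        · exact adj_sym (hS.it k) ⟨x, (hS.it k).rot x z y hz⟩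
      obtain ⟨x', y', h1, h2⟩ := ih hyz
      refine ⟨x', y', h1, ?_⟩
      change (1 / 2 : ℝ) • (S.pos f k x + S.pos f k z) -
        (1 / 2 : ℝ) • (S.pos f k x + S.pos f k y) = _
      rw [hk, mul_smul, ← h2]
      module

/-- Positions are convex combinations of the positions of the carrier, with positive weights. -/
theorem pos_conv {E : Type} [AddCommGroup E] [Module ℝ E] (f : S.V → E) (k : ℕ)
    (p : (S.it k).V) : ∃ (s : Finset S.V) (t : S.V → ℝ), (s : Set S.V) = S.car k p ∧
      (∀ v ∈ s, 0 < t v) ∧ ∑ v ∈ s, t v = 1 ∧ S.pos f k p = ∑ v ∈ s, t v • f v := by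
  classical
  induction k with
  | zero =>
    have h0 : ∀ x : S.V, ∃ (s : Finset S.V) (t : S.V → ℝ), (s : Set S.V) = {x} ∧
        (∀ v ∈ s, 0 < t v) ∧ ∑ v ∈ s, t v = 1 ∧ f x = ∑ v ∈ s, t v • f v := by
      intro x
      refine ⟨{x}, fun _ => 1, Finset.coe_singleton x, fun _ _ => one_pos, ?_, ?_⟩
      · rw [Finset.sum_singleton]
      · rw [Finset.sum_singleton, one_smul]
    exact h0 p
  | succ k ih =>
    refine Sym2.ind (fun x y => ?_) p
    obtain ⟨s, t, h1, h2, h3, h4⟩ := ih x
    obtain ⟨s', t', h1', h2', h3', h4'⟩ := ih y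
    have e1 : ∀ {M : Type} [AddCommMonoid M] (g : S.V → M),
        ∑ v ∈ s ∪ s', (if v ∈ s then g v else 0) = ∑ v ∈ s, g v := by
      intro M _ g
      rw [Finset.sum_ite_mem, Finset.inter_eq_right.2 Finset.subset_union_left]
    have e2 : ∀ {M : Type} [AddCommMonoid M] (g : S.V → M),
        ∑ v ∈ s ∪ s', (if v ∈ s' then g v else 0) = ∑ v ∈ s', g v := by
      intro M _ g
      rw [Finset.sum_ite_mem, Finset.inter_eq_right.2 Finset.subset_union_right]
    refine ⟨s ∪ s', fun v => (1 / 2) * (if v ∈ s then t v else 0) +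
      (1 / 2) * (if v ∈ s' then t' v else 0), ?_, ?_, ?_, ?_⟩
    · rw [Finset.coe_union, h1, h1', car_mk]
    · intro v hv
      change 0 < (1 / 2) * (if v ∈ s then t v else 0) + (1 / 2) * (if v ∈ s' then t' v else 0)
      rcases Finset.mem_union.1 hv with hv | hv
      · have a1 := h2 v hv
        have a2 : 0 ≤ (if v ∈ s' then t' v else 0) := by
          split_ifs with h5
          · exact (h2' v h5).le
          · exact le_rfl
        rw [if_pos hv]
        linarith
      · have a1 := h2' v hv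
        have a2 : 0 ≤ (if v ∈ s then t v else 0) := by
          split_ifs with h5
          · exact (h2 v h5).le
          · exact le_rfl
        rw [if_pos hv]
        linarith
    · rw [Finset.sum_add_distrib, ← Finset.mul_sum, ← Finset.mul_sum, e1, e2, h3, h3']
      norm_num
    · change (1 / 2 : ℝ) • (S.pos f k x + S.pos f k y) = _
      have e3 : ∀ v, ((1 / 2 : ℝ) * (if v ∈ s then t v else 0) +
          (1 / 2) * (if v ∈ s' then t' v else 0)) • f v =
          (1 / 2 : ℝ) • (if v ∈ s then t v • f v else 0) +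
          (1 / 2 : ℝ) • (if v ∈ s' then t' v • f v else 0) := by
        intro v
        rw [add_smul, mul_smul, mul_smul, ite_smul, ite_smul, zero_smul]
      rw [Finset.sum_congr rfl fun v _ => e3 v, Finset.sum_add_distrib, ← Finset.smul_sum,
        ← Finset.smul_sum, e1, e2, ← h4, ← h4', smul_add]

/-- Functoriality. -/
theorem mp_T {S' : Srf} (f : S.V → S'.V) (hf : ∀ x y z, S.T x y z → S'.T (f x) (f y) (f z))
    (k : ℕ) (p q r : (S.it k).V) (h : (S.it k).T p q r) :
    (S'.it k).T (mp S S' f k p) (mp S S' f k q) (mp S S' f k r) := by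
  induction k with
  | zero => exact hf p q r h
  | succ k ih =>
    obtain ⟨x, y, z, hT, hc⟩ := h
    refine ⟨mp S S' f k x, mp S S' f k y, mp S S' f k z, ih x y z hT, ?_⟩
    rcases hc with ⟨rfl, rfl, rfl⟩ | ⟨rfl, rfl, rfl⟩ | ⟨rfl, rfl, rfl⟩ | ⟨rfl, rfl, rfl⟩
    · exact Or.inl ⟨rfl, rfl, rfl⟩
    · exact Or.inr (Or.inl ⟨rfl, rfl, rfl⟩)
    · exact Or.inr (Or.inr (Or.inl ⟨rfl, rfl, rfl⟩))
    · exact Or.inr (Or.inr (Or.inr ⟨rfl, rfl, rfl⟩))

theorem mp_comp (f g : S.V → S.V) (k : ℕ) (p : (S.it k).V) :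
    mp S S f k (mp S S g k p) = mp S S (f ∘ g) k p := by
  induction k with
  | zero => rfl
  | succ k ih =>
    refine Sym2.ind (fun x y => ?_) p
    change s(mp S S f k (mp S S g k x), mp S S f k (mp S S g k y)) =
      s(mp S S (f ∘ g) k x, mp S S (f ∘ g) k y)
    rw [ih x, ih y]

theorem mp_id (k : ℕ) (p : (S.it k).V) : mp S S id k p = p := by
  induction k with
  | zero => rfl
  | succ k ih =>
    refine Sym2.ind (fun x y => ?_) p
    change s(mp S S id k x, mp S S id k y) = s(x, y)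
    rw [ih x, ih y]

theorem mp_car {S' : Srf} (f : S.V → S'.V) (k : ℕ) (p : (S.it k).V) :
    S'.car k (mp S S' f k p) = f '' S.car k p := by
  induction k with
  | zero => exact (Set.image_singleton (f := f) (a := p)).symm
  | succ k ih =>
    refine Sym2.ind (fun x y => ?_) p
    change S'.car (k + 1) s(mp S S' f k x, mp S S' f k y) = f '' S.car (k + 1) s(x, y)
    rw [car_mk, car_mk, ih x, ih y, Set.image_union]

theorem mp_pos {S' : Srf} {E : Type} [AddCommGroup E] [Module ℝ E] (f : S.V → S'.V)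
    (φ : S'.V → E) (k : ℕ) (p : (S.it k).V) :
    S'.pos φ k (mp S S' f k p) = S.pos (φ ∘ f) k p := by
  induction k with
  | zero => rfl
  | succ k ih =>
    refine Sym2.ind (fun x y => ?_) p
    change (1 / 2 : ℝ) • (S'.pos φ k (mp S S' f k x) + S'.pos φ k (mp S S' f k y)) =
      (1 / 2 : ℝ) • (S.pos (φ ∘ f) k x + S.pos (φ ∘ f) k y)
    rw [ih x, ih y]

theorem mp_io {S' : Srf} (f : S.V → S'.V) (k : ℕ) (x : S.V) :
    mp S S' f k (S.io k x) = S'.io k (f x) := by
  induction k with
  | zero => rfl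
  | succ k ih =>
    change s(mp S S' f k (S.io k x), mp S S' f k (S.io k x)) = s(S'.io k (f x), S'.io k (f x))
    rw [ih]

end Srf

end URW
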