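import Pool.Agent.URW.Srf.SubB

/-!
# URW Srf: carriers

Problem MP_fc0f29_gt; architect helper65. `v ∈ S.car (k + 1) e` means: there is `x` with `Sym2.Mem x e` and
`v ∈ S.car k x` (`car_succ`, by definition).

PROOFS (all by induction over `k`). `car_tri`: the members of the vertices of a triangle of `S.sub` are
among `x, y, z` with `T x y z` (in `S.it k`), then the induction hypothesis. `car_nonempty`: every `e` has a
member. `car_io`, `car_dir`: compute. `car_single`: if `S.car (k+1) e = {x}` then every member `m` of `e` has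
`S.car k m = {x}` (`car_nonempty`), so `m = S.io k x`, so `e = s(m, m)`. `link_io`: `sub_T_diag` for `S.it k` and
the induction hypothesis. `dir_inj`: `Sym2.congr_right`. `btw_io`: → the chain from `dir u`: all its elements
are of the form `dir z` with `z` in a chain from `u` (induction over `TransGen`, `link_io`, `dir_inj`); ← the same.
(`dir k x u ≠ dir k x v ↔ u ≠ v` by `dir_inj`.)
`star_conn`: `k = 0`: `v = p`, `l = []`. `k + 1`: `p = e`, there is a member `m` of `e` with `v ∈ car k m`; `m` has a neighbour (as `e` has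
one: `sub_adj_cases`). The induction hypothesis gives a walk `m :: l` to `io k v` in `S.it k`, all of whose vertices have
`v` in the carrier; `sd (m :: l)` is a walk of `S.sub` from `s(m, m)` to `s(io, io)` (`sub_mk1`, `sub_mk2`), the
carriers of its vertices contain `v`. If `e = s(m, m)` this is the walk; otherwise prepend `e = s(m, m')`.
-/

set_option autoImplicit false

namespace URW

namespace Srf

variable {S : Srf}

private theorem car_mk (k : ℕ) (x y : (S.it k).V) :
    S.car (k + 1) (Sym2.mk x y : Sym2 (S.it k).V) = S.car k x ∪ S.car k y := by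
  ext v
  constructor
  · rintro ⟨z, hz, hv⟩
    rcases Sym2.mem_iff.1 hz with rfl | rfl
    · exact Or.inl hv
    · exact Or.inr hv
  · rintro (hv | hv)
    · exact ⟨x, Sym2.mem_mk_left x y, hv⟩
    · exact ⟨y, Sym2.mem_mk_right x y, hv⟩

/-- Fine triangles lie in old triangles. -/
theorem car_tri (hS : S.Good) (k : ℕ) {p q r : (S.it k).V} (h : (S.it k).T p q r) :
    ∃ x y z, S.T x y z ∧ S.car k p ∪ S.car k q ∪ S.car k r ⊆ {x, y, z} := by
  induction k with
  | zero =>
    refine ⟨p, q, r, h, ?_⟩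
    rintro v ((rfl | rfl) | rfl)
    · exact Or.inl rfl
    · exact Or.inr (Or.inl rfl)
    · exact Or.inr (Or.inr rfl)
  | succ k ih =>
    obtain ⟨a, b, c, hT, hc⟩ := h
    obtain ⟨x, y, z, h1, h2⟩ := ih hT
    refine ⟨x, y, z, h1, ?_⟩
    have ha : S.car k a ⊆ {x, y, z} := fun v hv => h2 (Or.inl (Or.inl hv))
    have hb : S.car k b ⊆ {x, y, z} := fun v hv => h2 (Or.inl (Or.inr hv))
    have hc' : S.car k c ⊆ {x, y, z} := fun v hv => h2 (Or.inr hv)
    rcases hc with ⟨rfl, rfl, rfl⟩ | ⟨rfl, rfl, rfl⟩ | ⟨rfl, rfl, rfl⟩ | ⟨rfl, rfl, rfl⟩ <;>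
      rw [car_mk, car_mk, car_mk] <;>
      simp only [Set.union_subset_iff, ha, hb, hc', and_self]

theorem car_nonempty (k : ℕ) (p : (S.it k).V) : (S.car k p).Nonempty := by
  induction k with
  | zero => exact ⟨p, rfl⟩
  | succ k ih =>
    induction p using Sym2.ind with
    | _ x y =>
      obtain ⟨v, hv⟩ := ih x
      exact ⟨v, x, Sym2.mem_mk_left x y, hv⟩

theorem car_io (k : ℕ) (x : S.V) : S.car k (S.io k x) = {x} := by
  induction k with
  | zero => rfl
  | succ k ih =>
    have h1 : S.car (k + 1) (S.io (k + 1) x) = S.car k (S.io k x) ∪ S.car k (S.io k x) :=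
      car_mk k _ _
    rw [h1, ih, Set.union_self]

theorem car_dir (k : ℕ) (hk : 1 ≤ k) (x y : S.V) : S.car k (S.dir k x y) = {x, y} := by
  have key : ∀ j, {x} ∪ S.car j (S.dir j x y) = ({x, y} : Set S.V) := by
    intro j
    induction j with
    | zero => exact (Set.insert_eq x {y}).symm
    | succ j ih =>
      have h1 : S.car (j + 1) (S.dir (j + 1) x y) = S.car j (S.io j x) ∪ S.car j (S.dir j x y) :=
        car_mk j _ _
      rw [h1, car_io, ih, ← Set.insert_eq, Set.insert_idem]
  obtain ⟨j, rfl⟩ : ∃ j, k = j + 1 := ⟨k - 1, by omega⟩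
  have h1 : S.car (j + 1) (S.dir (j + 1) x y) = S.car j (S.io j x) ∪ S.car j (S.dir j x y) :=
    car_mk j _ _
  rw [h1, car_io, key]

theorem car_single (k : ℕ) {p : (S.it k).V} {x : S.V} (h : S.car k p = {x}) : p = S.io k x := by
  induction k with
  | zero => exact Set.singleton_eq_singleton_iff.1 h
  | succ k ih =>
    induction p using Sym2.ind with
    | _ a b =>
      have h1 : S.car k a ∪ S.car k b = {x} := (car_mk k a b).symm.trans h
      have ha : S.car k a = {x} := (Set.Nonempty.subset_singleton_iff (car_nonempty k a)).1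
        (Set.subset_union_left.trans h1.subset)
      have hb : S.car k b = {x} := (Set.Nonempty.subset_singleton_iff (car_nonempty k b)).1
        (Set.subset_union_right.trans h1.subset)
      rw [ih ha, ih hb]
      rfl

/-- The triangles around an old vertex. -/
theorem link_io (hS : S.Good) (k : ℕ) (x : S.V) (p q : (S.it k).V) :
    (S.it k).T (S.io k x) p q ↔ ∃ y z, S.T x y z ∧ p = S.dir k x y ∧ q = S.dir k x z := by
  induction k with
  | zero =>
    constructor
    · exact fun h => ⟨p, q, h, rfl, rfl⟩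
    · rintro ⟨y, z, h, rfl, rfl⟩
      exact h
  | succ k ih =>
    have h1 : (S.it (k + 1)).T (S.io (k + 1) x) p q ↔ ∃ y z, (S.it k).T (S.io k x) y z ∧
        p = Sym2.mk (S.io k x) y ∧ q = Sym2.mk (S.io k x) z := sub_T_diag (hS.it k)
    rw [h1]
    constructor
    · rintro ⟨y, z, h, rfl, rfl⟩
      obtain ⟨y', z', h', rfl, rfl⟩ := (ih y z).1 h
      exact ⟨y', z', h', rfl, rfl⟩
    · rintro ⟨y', z', h', rfl, rfl⟩
      exact ⟨S.dir k x y', S.dir k x z', (ih _ _).2 ⟨y', z', h', rfl, rfl⟩, rfl, rfl⟩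

theorem dir_inj (hS : S.Good) (k : ℕ) (x y z : S.V) (hy : S.Adj x y) (hz : S.Adj x z)
    (h : S.dir k x y = S.dir k x z) : y = z := by
  induction k with
  | zero => exact h
  | succ k ih => exact ih (Sym2.congr_right.1 h)

theorem btw_io (hS : S.Good) (k : ℕ) {x u v y : S.V} (hu : S.Adj x u) (hv : S.Adj x v)
    (hy : S.Adj x y) :
    (S.it k).Btw (S.io k x) (S.dir k x u) (S.dir k x v) (S.dir k x y) ↔ S.Btw x u v y := by
  constructor
  · rintro ⟨h1, h2, h3⟩
    refine ⟨fun e => h1 (by rw [e]), fun e => h2 (by rw [e]), ?_⟩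
    have key : ∀ b, Relation.TransGen (fun p q => (S.it k).T (S.io k x) p q ∧ q ≠ S.dir k x v)
        (S.dir k x u) b → ∃ z, S.Adj x z ∧ b = S.dir k x z ∧
          Relation.TransGen (fun p q => S.T x p q ∧ q ≠ v) u z := by
      intro b hb
      induction hb with
      | single hb =>
        obtain ⟨y', z', h4, h5, rfl⟩ := (link_io hS k x _ _).1 hb.1
        have h6 : u = y' := dir_inj hS k x u y' hu ⟨z', h4⟩ h5
        subst h6
        exact ⟨z', (hS.T_adj h4).2.2.2.1, rfl,
          Relation.TransGen.single ⟨h4, fun e => hb.2 (by rw [e])⟩⟩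
      | tail _ hb ih =>
        obtain ⟨z, hz, rfl, h7⟩ := ih
        obtain ⟨y', z', h4, h5, rfl⟩ := (link_io hS k x _ _).1 hb.1
        have h6 : z = y' := dir_inj hS k x z y' hz ⟨z', h4⟩ h5
        subst h6
        exact ⟨z', (hS.T_adj h4).2.2.2.1, rfl, h7.tail ⟨h4, fun e => hb.2 (by rw [e])⟩⟩
    obtain ⟨z, hz, h4, h5⟩ := key _ h3
    have h6 : y = z := dir_inj hS k x y z hy hz h4
    rw [h6]
    exact h5
  · rintro ⟨h1, h2, h3⟩
    refine ⟨fun e => h1 (dir_inj hS k x u v hu hv e), fun e => h2 (dir_inj hS k x y u hy hu e), ?_⟩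
    refine Relation.TransGen.lift (S.dir k x) (fun a b hab => ?_) _ _ h3
    refine ⟨(link_io hS k x _ _).2 ⟨a, b, hab.1, rfl, rfl⟩, fun e => hab.2 ?_⟩
    exact dir_inj hS k x b v (hS.T_adj hab.1).2.2.2.1 hv e

private theorem car_adj {S' : Srf} (hS : S'.Good) {x y : S'.V} (h : S'.Adj x y) :
    S'.sub.Adj (Sym2.mk x y : Sym2 S'.V) (Sym2.mk x x : Sym2 S'.V) := by
  obtain ⟨w, hw⟩ := hS.exists_pred h
  exact ⟨_, sub_mk2 hw⟩

private theorem car_adj' {S' : Srf} {x y : S'.V} (h : S'.Adj x y) :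
    S'.sub.Adj (Sym2.mk x x : Sym2 S'.V) (Sym2.mk x y : Sym2 S'.V) := by
  obtain ⟨w, hw⟩ := h
  exact ⟨_, sub_mk1 hw⟩

private theorem car_sd {S' : Srf} (hS : S'.Good) (e : S'.V) : ∀ (t : List S'.V) (x : S'.V),
    S'.Wlk (x :: t) → (x :: t).getLast? = some e →
    ∃ l : List (Sym2 S'.V), S'.sub.Wlk ((Sym2.mk x x : Sym2 S'.V) :: l) ∧
      ((Sym2.mk x x : Sym2 S'.V) :: l).getLast? = some (Sym2.mk e e) ∧
      ∀ q ∈ (Sym2.mk x x : Sym2 S'.V) :: l, ∃ m ∈ x :: t, Sym2.Mem m q := by
  intro t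
  induction t with
  | nil =>
    intro x _ he
    have h1 : x = e := by simpa using he
    subst h1
    refine ⟨[], List.IsChain.singleton _, rfl, fun q hq => ?_⟩
    have h2 : q = Sym2.mk x x := by simpa using hq
    subst h2
    exact ⟨x, List.mem_cons_self, Sym2.mem_mk_left x x⟩
  | cons b t ih =>
    intro x hw he
    have hw1 : S'.Adj x b ∧ S'.Wlk (b :: t) := List.isChain_cons_cons.1 hw
    rw [List.getLast?_cons_cons] at he
    obtain ⟨l, h1, h2, h3⟩ := ih b hw1.2 he
    refine ⟨Sym2.mk x b :: Sym2.mk b b :: l, ?_, ?_, ?_⟩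
    · refine List.isChain_cons_cons.2 ⟨car_adj' hw1.1, List.isChain_cons_cons.2 ⟨?_, h1⟩⟩
      have h4 := car_adj hS (hS.adj_symm hw1.1)
      rwa [Sym2.eq_swap] at h4
    · rw [List.getLast?_cons_cons, List.getLast?_cons_cons]
      exact h2
    · intro q hq
      rcases List.mem_cons.1 hq with rfl | hq
      · exact ⟨x, List.mem_cons_self, Sym2.mem_mk_left x x⟩
      · rcases List.mem_cons.1 hq with rfl | hq
        · exact ⟨x, List.mem_cons_self, Sym2.mem_mk_left x b⟩
        · obtain ⟨m, hm, hq'⟩ := h3 q hq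
          exact ⟨m, List.mem_cons_of_mem _ hm, hq'⟩

/-- Open stars of old vertices are connected. -/
theorem star_conn (hS : S.Good) (k : ℕ) (v : S.V) (p : (S.it k).V) (hp : ∃ q, (S.it k).Adj p q)
    (hv : v ∈ S.car k p) :
    ∃ l : List (S.it k).V, (S.it k).Wlk (p :: l) ∧ (p :: l).getLast? = some (S.io k v) ∧
      ∀ q ∈ p :: l, v ∈ S.car k q := by
  induction k with
  | zero =>
    have h1 : v = p := hv
    subst h1
    refine ⟨[], List.IsChain.singleton _, rfl, fun q hq => ?_⟩
    have h2 : q = v := by simpa using hq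
    rw [h2]
    rfl
  | succ k ih =>
    have hSk : (S.it k).Good := hS.it k
    -- the walk from a member `m` of the vertex
    have key : ∀ m : (S.it k).V, (∃ q, (S.it k).Adj m q) → v ∈ S.car k m →
        ∃ l : List (Sym2 (S.it k).V), (S.it k).sub.Wlk ((Sym2.mk m m : Sym2 (S.it k).V) :: l) ∧
          ((Sym2.mk m m : Sym2 (S.it k).V) :: l).getLast? =
            some (Sym2.mk (S.io k v) (S.io k v)) ∧
          ∀ q ∈ (Sym2.mk m m : Sym2 (S.it k).V) :: l, v ∈ S.car (k + 1) q := by
      intro m hm hvm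
      obtain ⟨l, h1, h2, h3⟩ := ih m hm hvm
      obtain ⟨l', h4, h5, h6⟩ := car_sd hSk _ l m h1 h2
      refine ⟨l', h4, h5, fun q hq => ?_⟩
      obtain ⟨m', hm', hq'⟩ := h6 q hq
      exact ⟨m', hq', h3 m' hm'⟩
    have key2 : ∀ x y : (S.it k).V, (S.it k).Adj x y → v ∈ S.car k x →
        ∃ l : List (Sym2 (S.it k).V), (S.it k).sub.Wlk ((Sym2.mk x y : Sym2 (S.it k).V) :: l) ∧
          ((Sym2.mk x y : Sym2 (S.it k).V) :: l).getLast? =
            some (Sym2.mk (S.io k v) (S.io k v)) ∧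
          ∀ q ∈ (Sym2.mk x y : Sym2 (S.it k).V) :: l, v ∈ S.car (k + 1) q := by
      intro x y hxy hvx
      obtain ⟨l, h1, h2, h3⟩ := key x ⟨y, hxy⟩ hvx
      refine ⟨Sym2.mk x x :: l, List.isChain_cons_cons.2 ⟨car_adj hSk hxy, h1⟩, ?_,
        fun q hq => ?_⟩
      · rw [List.getLast?_cons_cons]
        exact h2
      · rcases List.mem_cons.1 hq with rfl | hq
        · exact ⟨x, Sym2.mem_mk_left x y, hvx⟩
        · exact h3 q hq
    obtain ⟨q, hq⟩ := hp
    obtain ⟨x, y, hxy, hc⟩ := sub_adj_cases hSk hq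
    have hc' : p = (Sym2.mk x x : Sym2 (S.it k).V) ∨ p = (Sym2.mk x y : Sym2 (S.it k).V) := by
      rcases hc with ⟨h1, -⟩ | ⟨h1, -⟩ | ⟨z, h1, -⟩
      · exact Or.inl h1
      · exact Or.inr h1
      · exact Or.inr h1
    rcases hc' with rfl | rfl
    · obtain ⟨m, hm, hvm⟩ := hv
      have h1 : m = x := by
        rcases Sym2.mem_iff.1 hm with h | h <;> exact h
      subst h1
      exact key m ⟨y, hxy⟩ hvm
    · obtain ⟨m, hm, hvm⟩ := hv
      rcases Sym2.mem_iff.1 hm with h | h
      · subst h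
        exact key2 m y hxy hvm
      · subst h
        have h1 := key2 m x (hSk.adj_symm hxy) hvm
        rw [Sym2.eq_swap] at h1
        exact h1

end Srf

end URW
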