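import Pool.Agent.URW.Srf.Lst
import Pool.Agent.URW.Srf.Car

/-!
# URW Srf: subdivided walks

Problem MP_fc0f29_gt; architect helper65.

PROOFS. `head_sd`, `last_sd`, `mem_sd`, `nx_sd`, `sd_append`: induction over `l` (cases `[]`, `[a]`, `a :: b :: l`); in `nx_sd` the
consecutive pairs of `sd (a :: b :: l) = aa :: ab :: sd (b :: l)` are `(aa, ab)`, `(ab, bb)` (the head of `sd (b :: l)` is
`bb`) and those of `sd (b :: l)`. `nodup_sd`: `aa` and `ab` are not in `sd (b :: l)`, since `a` is not a member of any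
of its elements (`mem_sd`, `a ∉ b :: l`), and `aa ≠ ab`. `wlk_sd`: `sub_mk1`, `sub_mk2`, `sub_mk3` (`aa → ab` for
`Adj a b`; `ab → bb`: `T b w a` for some `w`, then the edge `(ba, bb)` is in a rotation of `(bb, bw, ba)`).
`triFree_sd`: if `s(x, y) ∈ sd l` then `x, y ∈ l` (`mem_sd`), and every triangle of `S.sub` has vertices whose
members are all of `x, y, z` with `T x y z`. `chordless_sd`: `sub_adj_cases`: `(xx, xy)`: `s(x, y) ∈ sd l`, `x ≠ y`, so
`Nx l x y` or `Nx l y x` (`mem_sd`, `Sym2.eq_iff`), then `nx_sd`; `(xy, xx)` the same; `(xy, xz)` with `T x y z` or `T x z y`: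
`x, y, z ∈ l`, excluded by `TriFree`.
The statements for `sdk k` follow by induction over `k`. `chordless_sdk`: `k = j + 1`, `triFree_sdk` for `j`.
`mem_sdk`: prove first: for consecutive `p, q` in `sdk k l` there are `x, y` with `Nx l x y` and
`car k p ∪ car k q = {x, y}` (by `nx_sd`); then for `k + 1`: `p = s(m, m)` with `m ∈ sdk k l`, `car (k+1) p = car k m`,
or `p = s(m, m')` with `Nx (sdk k l) m m'` and `car (k+1) p = car k m ∪ car k m'` (`nx_iff` to translate).
`sdk_append`: `sdk k (l ++ [x]) = m' ++ [io k x]` (`last_sdk`), `sdk k (x :: l') = io k x :: m` (`head_sdk`), then `sd_append`.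
`nx_sdk_right`, `nx_sdk_left`: induction, `nx_sd`.
`meet_sdk`: let `v` be in both. By `mem_sdk` for `P` and `P'` the carrier of `v` is `{y}`, `y ∈ P`, or `{y, y'}`, `Nx P y y'`
(`y ≠ y'`), and the same for `P'`. All elements of the carrier are in `P` and in `P'`, so equal to `x`; so
the carrier is `{x}` and `v = io k x` (`car_single`).
-/

set_option autoImplicit false

namespace URW

namespace Srf

section lists

variable {X : Type}

private theorem sdk_sd_cons (b : X) (l : List X) : ∃ m, sd (b :: l) = s(b, b) :: m := by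
  cases l with
  | nil => exact ⟨[], rfl⟩
  | cons c l => exact ⟨s(b, c) :: sd (c :: l), rfl⟩

theorem head_sd (l : List X) : (sd l).head? = l.head?.map fun a => s(a, a) := by
  match l with
  | [] => rfl
  | [a] => rfl
  | a :: b :: l => rfl

theorem last_sd (l : List X) : (sd l).getLast? = l.getLast?.map fun a => s(a, a) := by
  induction l with
  | nil => rfl
  | cons a l ih =>
    cases l with
    | nil => rfl
    | cons b l =>
      obtain ⟨m, hm⟩ := sdk_sd_cons b l
      change (s(a, a) :: s(a, b) :: sd (b :: l)).getLast? = _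
      rw [hm, List.getLast?_cons_cons, List.getLast?_cons_cons, ← hm, ih, List.getLast?_cons_cons]

private theorem sdk_mem_cons {a b : X} {l : List X} {e : Sym2 X} :
    e ∈ sd (a :: b :: l) ↔ e = s(a, a) ∨ e = s(a, b) ∨ e ∈ sd (b :: l) := by
  change e ∈ s(a, a) :: s(a, b) :: sd (b :: l) ↔ _
  rw [List.mem_cons, List.mem_cons]

private theorem sdk_nx_cons {a b p q : X} {l : List X} :
    Nx (a :: b :: l) p q ↔ (p = a ∧ q = b) ∨ Nx (b :: l) p q := Iff.rfl

theorem mem_sd {l : List X} {e : Sym2 X} :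
    e ∈ sd l ↔ (∃ a ∈ l, e = s(a, a)) ∨ ∃ a b, Nx l a b ∧ e = s(a, b) := by
  induction l with
  | nil =>
    constructor
    · intro h
      exact absurd h List.not_mem_nil
    · rintro (⟨a, h, -⟩ | ⟨a, b, h, -⟩)
      · exact absurd h List.not_mem_nil
      · exact h.elim
  | cons a l ih =>
    cases l with
    | nil =>
      constructor
      · intro h
        exact Or.inl ⟨a, List.mem_cons_self, List.mem_singleton.1 h⟩
      · rintro (⟨c, h, rfl⟩ | ⟨c, d, h, -⟩)
        · rw [List.mem_singleton.1 h]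
          exact List.mem_cons_self
        · exact h.elim
    | cons b l =>
      rw [sdk_mem_cons, ih]
      constructor
      · rintro (h | h | ⟨c, hc, h⟩ | ⟨c, d, hc, h⟩)
        · exact Or.inl ⟨a, List.mem_cons_self, h⟩
        · exact Or.inr ⟨a, b, Or.inl ⟨rfl, rfl⟩, h⟩
        · exact Or.inl ⟨c, List.mem_cons_of_mem _ hc, h⟩
        · exact Or.inr ⟨c, d, Or.inr hc, h⟩
      · rintro (⟨c, hc, h⟩ | ⟨c, d, hc, h⟩)
        · rcases List.mem_cons.1 hc with rfl | hc
          · exact Or.inl h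
          · exact Or.inr (Or.inr (Or.inl ⟨c, hc, h⟩))
        · rcases sdk_nx_cons.1 hc with ⟨rfl, rfl⟩ | hc
          · exact Or.inr (Or.inl h)
          · exact Or.inr (Or.inr (Or.inr ⟨c, d, hc, h⟩))

theorem nx_sd {l : List X} {e e' : Sym2 X} : Nx (sd l) e e' ↔ ∃ a b, Nx l a b ∧
    ((e = s(a, a) ∧ e' = s(a, b)) ∨ (e = s(a, b) ∧ e' = s(b, b))) := by
  induction l with
  | nil =>
    constructor
    · intro h
      exact h.elim
    · rintro ⟨a, b, h, -⟩
      exact h.elim
  | cons a l ih =>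
    cases l with
    | nil =>
      constructor
      · intro h
        exact h.elim
      · rintro ⟨a, b, h, -⟩
        exact h.elim
    | cons b l =>
      obtain ⟨m, hm⟩ := sdk_sd_cons b l
      have h1 : Nx (sd (a :: b :: l)) e e' ↔ (e = s(a, a) ∧ e' = s(a, b)) ∨
          (e = s(a, b) ∧ e' = s(b, b)) ∨ Nx (sd (b :: l)) e e' := by
        change Nx (s(a, a) :: s(a, b) :: sd (b :: l)) e e' ↔ _
        rw [hm]
        exact Iff.rfl
      rw [h1, ih]
      constructor
      · rintro (h | h | ⟨c, d, hc, h⟩)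
        · exact ⟨a, b, Or.inl ⟨rfl, rfl⟩, Or.inl h⟩
        · exact ⟨a, b, Or.inl ⟨rfl, rfl⟩, Or.inr h⟩
        · exact ⟨c, d, Or.inr hc, h⟩
      · rintro ⟨c, d, hc, h⟩
        rcases sdk_nx_cons.1 hc with ⟨rfl, rfl⟩ | hc
        · rcases h with h | h
          · exact Or.inl h
          · exact Or.inr (Or.inl h)
        · exact Or.inr (Or.inr ⟨c, d, hc, h⟩)

private theorem sdk_mem_of_mem {l : List X} {e : Sym2 X} (h : e ∈ sd l) {a : X} (ha : a ∈ e) :
    a ∈ l := by
  rcases mem_sd.1 h with ⟨c, hc, rfl⟩ | ⟨c, d, hc, rfl⟩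
  · rcases Sym2.mem_iff.1 ha with rfl | rfl <;> exact hc
  · rcases Sym2.mem_iff.1 ha with rfl | rfl
    · exact hc.left_mem
    · exact hc.right_mem

theorem nodup_sd {l : List X} (h : l.Nodup) : (sd l).Nodup := by
  induction l with
  | nil => exact List.nodup_nil
  | cons a l ih =>
    cases l with
    | nil => exact List.nodup_singleton _
    | cons b l =>
      obtain ⟨h1, h2⟩ := List.nodup_cons.1 h
      have h3 : ∀ e ∈ sd (b :: l), a ∉ e := fun e he ha => h1 (sdk_mem_of_mem he ha)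
      change (s(a, a) :: s(a, b) :: sd (b :: l)).Nodup
      refine List.nodup_cons.2 ⟨fun hm => ?_, List.nodup_cons.2 ⟨fun hm => ?_, ih h2⟩⟩
      · rcases List.mem_cons.1 hm with hm | hm
        · have h4 : b ∈ s(a, a) := by
            rw [hm]
            exact Sym2.mem_mk_right a b
          rcases Sym2.mem_iff.1 h4 with h5 | h5 <;>
            exact h1 (h5 ▸ List.mem_cons_self)
        · exact h3 _ hm (Sym2.mem_mk_left a a)
      · exact h3 _ hm (Sym2.mem_mk_left a b)

theorem sd_append (l l' : List X) (x : X) :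
    sd (l ++ x :: l') = (sd (l ++ [x])).dropLast ++ sd (x :: l') := by
  induction l with
  | nil => rfl
  | cons a l ih =>
    cases l with
    | nil => rfl
    | cons b l =>
      have h1 : sd (b :: l ++ [x]) ≠ [] := by
        obtain ⟨m, hm⟩ := sdk_sd_cons b (l ++ [x])
        rw [List.cons_append, hm]
        exact List.cons_ne_nil _ _
      have h2 : (sd (a :: b :: l ++ [x])).dropLast =
          s(a, a) :: s(a, b) :: (sd (b :: l ++ [x])).dropLast := by
        change (s(a, a) :: s(a, b) :: sd (b :: l ++ [x])).dropLast = _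
        rw [List.dropLast_cons_of_ne_nil (List.cons_ne_nil _ _), List.dropLast_cons_of_ne_nil h1]
      rw [h2]
      change s(a, a) :: s(a, b) :: sd (b :: l ++ x :: l') = _
      rw [ih]
      rfl

end lists

variable {S : Srf}

theorem wlk_sd (hS : S.Good) {l : List S.V} (h : S.Wlk l) : S.sub.Wlk (sd l) := by
  unfold Wlk at h ⊢
  induction l with
  | nil => exact List.isChain_nil
  | cons a l ih =>
    cases l with
    | nil => exact List.isChain_singleton _
    | cons b l =>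
      obtain ⟨h1, h2⟩ := List.isChain_cons_cons.1 h
      have h3 := ih h2
      obtain ⟨m, hm⟩ := sdk_sd_cons b l
      change List.IsChain S.sub.Adj (s(a, a) :: s(a, b) :: sd (b :: l))
      rw [hm] at h3 ⊢
      refine List.isChain_cons_cons.2 ⟨?_, List.isChain_cons_cons.2 ⟨?_, h3⟩⟩
      · obtain ⟨z, hz⟩ := h1
        exact ⟨_, sub_mk1 hz⟩
      · obtain ⟨w, hw⟩ := hS.exists_pred (hS.adj_symm h1)
        have h4 := sub_mk2 hw
        rw [Sym2.eq_swap] at h4
        exact ⟨_, h4⟩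

private theorem sdk_mem2 {l : List S.V} {x y : S.V} (h : s(x, y) ∈ sd l) : x ∈ l ∧ y ∈ l :=
  ⟨sdk_mem_of_mem h (Sym2.mem_mk_left x y), sdk_mem_of_mem h (Sym2.mem_mk_right x y)⟩

theorem triFree_sd (hS : S.Good) {l : List S.V} (h : S.TriFree l) : S.sub.TriFree (sd l) := by
  rintro u v w ⟨x, y, z, ht, hc⟩ hu hv hw
  rcases hc with ⟨rfl, rfl, rfl⟩ | ⟨rfl, rfl, rfl⟩ | ⟨rfl, rfl, rfl⟩ | ⟨rfl, rfl, rfl⟩
  · exact h x y z ht (sdk_mem2 hv).1 (sdk_mem2 hv).2 (sdk_mem2 hw).2
  · exact h x y z ht (sdk_mem2 hw).1 (sdk_mem2 hw).2 (sdk_mem2 hu).2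
  · exact h x y z ht (sdk_mem2 hu).1 (sdk_mem2 hu).2 (sdk_mem2 hv).2
  · exact h x y z ht (sdk_mem2 hu).1 (sdk_mem2 hu).2 (sdk_mem2 hv).2

private theorem sdk_nx_of_mem {l : List S.V} {x y : S.V} (hxy : x ≠ y) (h : s(x, y) ∈ sd l) :
    Nx (sd l) s(x, x) s(x, y) ∨ Nx (sd l) s(x, y) s(x, x) := by
  rcases mem_sd.1 h with ⟨c, -, hc⟩ | ⟨c, d, hn, hc⟩
  · rcases Sym2.eq_iff.1 hc with ⟨rfl, rfl⟩ | ⟨rfl, rfl⟩ <;> exact absurd rfl hxy
  · rcases Sym2.eq_iff.1 hc with ⟨rfl, rfl⟩ | ⟨rfl, rfl⟩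
    · exact Or.inl (nx_sd.2 ⟨x, y, hn, Or.inl ⟨rfl, rfl⟩⟩)
    · exact Or.inr (nx_sd.2 ⟨y, x, hn, Or.inr ⟨Sym2.eq_swap, rfl⟩⟩)

theorem chordless_sd (hS : S.Good) {l : List S.V} (h : S.TriFree l) :
    S.sub.Chordless (sd l) := by
  intro p hp q hq hpq
  obtain ⟨x, y, hxy, hc⟩ := sub_adj_cases hS hpq
  rcases hc with ⟨rfl, rfl⟩ | ⟨rfl, rfl⟩ | ⟨z, rfl, rfl, hz⟩
  · exact sdk_nx_of_mem (hS.adj_ne hxy) hq
  · exact (sdk_nx_of_mem (hS.adj_ne hxy) hp).symm
  · exfalso
    rcases hz with hz | hz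
    · exact h x y z hz (sdk_mem2 hp).1 (sdk_mem2 hp).2 (sdk_mem2 hq).2
    · exact h x z y hz (sdk_mem2 hp).1 (sdk_mem2 hq).2 (sdk_mem2 hp).2

/-- The subdivision of a walk is a walk. -/
theorem wlk_sdk (hS : S.Good) (k : ℕ) {l : List S.V} (h : S.Wlk l) :
    (S.it k).Wlk (S.sdk k l) := by
  induction k with
  | zero => exact h
  | succ k ih => exact wlk_sd (hS.it k) ih

theorem head_sdk (k : ℕ) (l : List S.V) : (S.sdk k l).head? = l.head?.map (S.io k) := by
  induction k with
  | zero =>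
    change l.head? = l.head?.map (fun x => x)
    rw [Option.map_id']
  | succ k ih =>
    refine (head_sd (S.sdk k l)).trans ?_
    rw [ih, Option.map_map]
    rfl

theorem last_sdk (k : ℕ) (l : List S.V) : (S.sdk k l).getLast? = l.getLast?.map (S.io k) := by
  induction k with
  | zero =>
    change l.getLast? = l.getLast?.map (fun x => x)
    rw [Option.map_id']
  | succ k ih =>
    refine (last_sd (S.sdk k l)).trans ?_
    rw [ih, Option.map_map]
    rfl

theorem nodup_sdk (k : ℕ) {l : List S.V} (h : l.Nodup) : (S.sdk k l).Nodup := by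
  induction k with
  | zero => exact h
  | succ k ih => exact nodup_sd ih

theorem triFree_sdk (hS : S.Good) (k : ℕ) {l : List S.V} (h : S.TriFree l) :
    (S.it k).TriFree (S.sdk k l) := by
  induction k with
  | zero => exact h
  | succ k ih => exact triFree_sd (hS.it k) ih

theorem chordless_sdk (hS : S.Good) {k : ℕ} (hk : 1 ≤ k) {l : List S.V} (h : S.TriFree l) :
    (S.it k).Chordless (S.sdk k l) := by
  obtain ⟨j, rfl⟩ : ∃ j, k = j + 1 := ⟨k - 1, by omega⟩
  exact chordless_sd (hS.it j) (triFree_sdk hS j h)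

private theorem sdk_car_mk (k : ℕ) (a b : (S.it k).V) :
    S.car (k + 1) (s(a, b) : Sym2 (S.it k).V) = S.car k a ∪ S.car k b := by
  ext v
  constructor
  · rintro ⟨x, hx, hv⟩
    rcases Sym2.mem_iff.1 (show x ∈ s(a, b) from hx) with rfl | rfl
    · exact Or.inl hv
    · exact Or.inr hv
  · rintro (hv | hv)
    · exact ⟨a, Sym2.mem_mk_left a b, hv⟩
    · exact ⟨b, Sym2.mem_mk_right a b, hv⟩

private theorem sdk_nx_car (k : ℕ) {l : List S.V} : ∀ {p q : (S.it k).V}, Nx (S.sdk k l) p q →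
    ∃ x y, Nx l x y ∧ S.car k p ∪ S.car k q = {x, y} := by
  induction k with
  | zero =>
    intro p q h
    exact ⟨p, q, h, rfl⟩
  | succ k ih =>
    intro p q h
    obtain ⟨a, b, hab, hc⟩ := nx_sd.1 (show Nx (sd (S.sdk k l)) p q from h)
    obtain ⟨x, y, hxy, hu⟩ := ih hab
    refine ⟨x, y, hxy, ?_⟩
    rcases hc with ⟨rfl, rfl⟩ | ⟨rfl, rfl⟩
    · refine (congrArg₂ (· ∪ ·) (sdk_car_mk k a a) (sdk_car_mk k a b)).trans ?_
      rw [Set.union_self, ← Set.union_assoc, Set.union_self, hu]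
    · refine (congrArg₂ (· ∪ ·) (sdk_car_mk k a b) (sdk_car_mk k b b)).trans ?_
      rw [Set.union_self, Set.union_assoc, Set.union_self, hu]

private theorem sdk_mem_car (k : ℕ) {l : List S.V} : ∀ {p : (S.it k).V}, p ∈ S.sdk k l →
    (∃ x ∈ l, S.car k p = {x}) ∨ ∃ x y, Nx l x y ∧ S.car k p = {x, y} := by
  induction k with
  | zero =>
    intro p h
    exact Or.inl ⟨p, h, rfl⟩
  | succ k ih =>
    intro p h
    rcases mem_sd.1 (show p ∈ sd (S.sdk k l) from h) with ⟨m, hm, rfl⟩ | ⟨m, m', hm, rfl⟩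
    · have h1 : S.car (k + 1) (s(m, m) : Sym2 (S.it k).V) = S.car k m :=
        (sdk_car_mk k m m).trans (Set.union_self _)
      rcases ih hm with ⟨x, hx, hc⟩ | ⟨x, y, hx, hc⟩
      · exact Or.inl ⟨x, hx, h1.trans hc⟩
      · exact Or.inr ⟨x, y, hx, h1.trans hc⟩
    · obtain ⟨x, y, hxy, hu⟩ := sdk_nx_car k hm
      exact Or.inr ⟨x, y, hxy, (sdk_car_mk k m m').trans hu⟩

/-- The vertices of a subdivided walk are on its vertices or edges. -/
theorem mem_sdk (k : ℕ) {l : List S.V} {p : (S.it k).V} (h : p ∈ S.sdk k l) :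
    (∃ x ∈ l, S.car k p = {x}) ∨
      ∃ A x y B, l = A ++ x :: y :: B ∧ S.car k p = {x, y} := by
  rcases sdk_mem_car k h with h | ⟨x, y, hxy, hc⟩
  · exact Or.inl h
  · obtain ⟨A, B, hl⟩ := nx_iff.1 hxy
    exact Or.inr ⟨A, x, y, B, hl, hc⟩

theorem sdk_append (k : ℕ) (l l' : List S.V) (x : S.V) :
    S.sdk k (l ++ x :: l') = (S.sdk k (l ++ [x])).dropLast ++ S.sdk k (x :: l') := by
  induction k with
  | zero =>
    change l ++ x :: l' = (l ++ [x]).dropLast ++ x :: l'
    rw [List.dropLast_concat]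
  | succ k ih =>
    have h1 : (S.sdk k (l ++ [x])).getLast? = some (S.io k x) := by
      rw [last_sdk, List.getLast?_concat]
      rfl
    have h2 : (S.sdk k (x :: l')).head? = some (S.io k x) := by
      rw [head_sdk]
      rfl
    obtain ⟨m, hm⟩ : ∃ m, S.sdk k (x :: l') = S.io k x :: m := by
      revert h2
      generalize S.sdk k (x :: l') = t
      intro h2
      cases t with
      | nil => exact absurd h2 (by simp)
      | cons c t =>
        have h3 : c = S.io k x := Option.some.inj h2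
        exact ⟨t, by rw [h3]⟩
    have h3 : (S.sdk k (l ++ [x])).dropLast ++ [S.io k x] = S.sdk k (l ++ [x]) :=
      List.dropLast_append_getLast? _ h1
    change sd (S.sdk k (l ++ x :: l')) = (sd (S.sdk k (l ++ [x]))).dropLast ++ sd (S.sdk k (x :: l'))
    rw [ih, hm, sd_append, h3]

theorem nx_sdk_right (k : ℕ) {l : List S.V} {x b : S.V} (h : Nx l x b) :
    Nx (S.sdk k l) (S.io k x) (S.dir k x b) := by
  induction k with
  | zero => exact h
  | succ k ih => exact nx_sd.2 ⟨S.io k x, S.dir k x b, ih, Or.inl ⟨rfl, rfl⟩⟩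

theorem nx_sdk_left (k : ℕ) {l : List S.V} {a x : S.V} (h : Nx l a x) :
    Nx (S.sdk k l) (S.dir k x a) (S.io k x) := by
  induction k with
  | zero => exact h
  | succ k ih => exact nx_sd.2 ⟨S.dir k x a, S.io k x, ih, Or.inr ⟨Sym2.eq_swap, rfl⟩⟩

private theorem sdk_car_sub (k : ℕ) {l : List S.V} {p : (S.it k).V} (h : p ∈ S.sdk k l) {w : S.V}
    (hw : w ∈ S.car k p) : w ∈ l := by
  rcases sdk_mem_car k h with ⟨x, hx, hc⟩ | ⟨x, y, hx, hc⟩
  · rw [hc] at hw
    rw [Set.mem_singleton_iff.1 hw]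
    exact hx
  · rw [hc] at hw
    rcases hw with rfl | hw
    · exact hx.left_mem
    · rw [Set.mem_singleton_iff.1 hw]
      exact hx.right_mem

theorem meet_sdk (k : ℕ) {P P' : List S.V} {x : S.V} (hx : ∀ v ∈ P, v ∈ P' → v = x)
    {v : (S.it k).V} (h : v ∈ S.sdk k P) (h' : v ∈ S.sdk k P') : v = S.io k x := by
  have h1 : ∀ w ∈ S.car k v, w = x := fun w hw =>
    hx w (sdk_car_sub k h hw) (sdk_car_sub k h' hw)
  exact car_single k (Set.eq_singleton_iff_nonempty_unique_mem.2 ⟨car_nonempty k v, h1⟩)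

end Srf

end URW
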