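import Pool.Agent.URW.Srf.Core
import Pool.Agent.URW.Srf.Pos
import Pool.Agent.URW.Srf.Sdk

/-!
# URW Srf: INTERFACE (architect helper65)

The interface consists of `noncrossing` (below) and of the theorems `Good.it` (SubB), `car_tri`,
`car_nonempty`, `car_io`, `car_dir`, `car_single`, `link_io`, `dir_inj`, `star_conn` (Car), `pos_adj`, `pos_conv`,
`mp_T`, `mp_comp`, `mp_id`, `mp_car`, `mp_pos`, `mp_io` (Pos), `wlk_sdk`, `head_sdk`, `last_sdk`, `mem_sdk`, `sdk_append`,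
`nodup_sdk` (Sdk). `S` is the coarse surface, `S.it k` the fine one.

PROOF of `noncrossing`: `core` for the surface `S.it k` (`Good.it`) with the walks `sdk k P`, `sdk k P'`, `π`, `π'`, the
vertices `io k x`, `dir k x a`, `dir k x b`, `dir k x a'`, `dir k x b'`: `wlk_sdk`, `nodup_sdk`, `chordless_sdk` (`hk`, `tP'`), `nx_sdk_left`,
`nx_sdk_right` (`nx_iff` gives `Nx P a x`, `Nx P x b` from `hP`), `meet_sdk`, `btw_io` (the adjacency of `x` and `a`, `b`, `a'`, `b'`:
`Nx.chain`, `adj_symm`), `head_sdk`, `last_sdk`.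
-/

set_option autoImplicit false

namespace URW

namespace Srf

variable {S : Srf}

/-- THE NONCROSSING THEOREM. `P`, `P'` are simple walks of the coarse surface without triangles,
which meet only in `x`, where they cross; `π`, `π'` are disjoint fine walks with the same ends; the
closed walk `P ∪ π` has winding number `0` about the ends of `P'`, and vice versa. This is
impossible. -/
theorem noncrossing (hS : S.Good) {k : ℕ} (hk : 1 ≤ k) {P P' A B A' B' : List S.V}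
    {x a b a' b' h₀ h₁ h₀' h₁' : S.V}
    (hP : P = A ++ a :: x :: b :: B) (hP' : P' = A' ++ a' :: x :: b' :: B')
    (wP : S.Wlk P) (wP' : S.Wlk P') (nP : P.Nodup) (nP' : P'.Nodup)
    (tP : ∀ u v w, S.T u v w → u ∈ P → v ∈ P → w ∈ P → False)
    (tP' : ∀ u v w, S.T u v w → u ∈ P' → v ∈ P' → w ∈ P' → False)
    (hx : ∀ v ∈ P, v ∈ P' → v = x)
    (hl : (S.Btw x b' a' a ∧ ¬ S.Btw x b' a' b) ∨ (S.Btw x b' a' b ∧ ¬ S.Btw x b' a' a))
    (e₀ : P.head? = some h₀) (e₁ : P.getLast? = some h₁)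
    (e₀' : P'.head? = some h₀') (e₁' : P'.getLast? = some h₁')
    {π π' : List (S.it k).V} (wπ : (S.it k).Wlk π) (wπ' : (S.it k).Wlk π')
    (f₀ : π.head? = some (S.io k h₀)) (f₁ : π.getLast? = some (S.io k h₁))
    (f₀' : π'.head? = some (S.io k h₀')) (f₁' : π'.getLast? = some (S.io k h₁'))
    (hd : ∀ p ∈ π, p ∉ π')
    (N₀' : (S.it k).NullAt (S.io k h₀') (S.sdk k P) π)
    (N₁' : (S.it k).NullAt (S.io k h₁') (S.sdk k P) π)
    (N₀ : (S.it k).NullAt (S.io k h₀) (S.sdk k P') π')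
    (N₁ : (S.it k).NullAt (S.io k h₁) (S.sdk k P') π') : False := by
  have hx1 : Nx P a x := nx_iff.2 ⟨A, b :: B, by rw [hP]⟩
  have hx2 : Nx P x b := nx_iff.2 ⟨A ++ [a], B, by rw [hP, List.append_assoc]; rfl⟩
  have hx1' : Nx P' a' x := nx_iff.2 ⟨A', b' :: B', by rw [hP']⟩
  have hx2' : Nx P' x b' := nx_iff.2 ⟨A' ++ [a'], B', by rw [hP', List.append_assoc]; rfl⟩
  have j1 : S.Adj x a := hS.adj_symm (hx1.chain wP)
  have j2 : S.Adj x b := hx2.chain wP
  have j1' : S.Adj x a' := hS.adj_symm (hx1'.chain wP')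
  have j2' : S.Adj x b' := hx2'.chain wP'
  refine core (hS.it k) (wlk_sdk hS k wP) (wlk_sdk hS k wP') (nodup_sdk k nP) (nodup_sdk k nP')
    (chordless_sdk hS hk tP') (nx_sdk_left k hx1) (nx_sdk_right k hx2) (nx_sdk_left k hx1')
    (nx_sdk_right k hx2') (fun v h h' => meet_sdk k hx h h') ?_ ?_ ?_ ?_ ?_ wπ wπ' f₀ f₁ f₀' f₁'
    hd N₀' N₁' N₀ N₁
  · rw [btw_io hS k j2' j1' j1, btw_io hS k j2' j1' j2]
    exact hl
  · rw [head_sdk, e₀]
    rfl
  · rw [last_sdk, e₁]
    rfl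
  · rw [head_sdk, e₀']
    rfl
  · rw [last_sdk, e₁']
    rfl

end Srf

end URW
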