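import Mathlib

/-!
# URW Srf: oriented triangulated surfaces, edge-midpoint subdivision

`S.T x y z`: `x, y, z` is a positively oriented (counterclockwise) triangle. The vertex type may
contain unused elements (vertices without neighbours); so the vertex type of the subdivision is
simply `Sym2 S.V`: the vertex `x` becomes `s(x, x)`, the midpoint of the edge `x y` is `s(x, y)`.
-/

set_option autoImplicit false

namespace URW

/-- A family of oriented triangles. -/
structure Srf where
  /-- vertices -/
  V : Type
  /-- positively oriented triangles -/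
  T : V → V → V → Prop

namespace Srf

/-- Neighbours. -/
def Adj (S : Srf) (x y : S.V) : Prop := ∃ z, S.T x y z

/-- Simply connected (homologically trivial) oriented triangulated surfaces without boundary. -/
structure Good (S : Srf) : Prop where
  rot : ∀ x y z, S.T x y z → S.T y z x
  ne : ∀ x y z, S.T x y z → x ≠ y
  uniq : ∀ x y z z', S.T x y z → S.T x y z' → z = z'
  opp : ∀ x y z, S.T x y z → ∃ w, S.T y x w
  nd : ∀ x y z, S.T x y z → ¬ S.T y x z
  link : ∀ x y y', S.Adj x y → S.Adj x y' → Relation.ReflTransGen (fun u v => S.T x u v) y y'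
  locfin : ∀ x, {y | S.Adj x y}.Finite
  exact : ∀ (A : Type) [AddCommGroup A] (a : S.V → S.V → A), (∀ x y, a y x = -a x y) →
    (∀ x y z, S.T x y z → a x y + a y z + a z x = 0) →
    ∃ φ : S.V → A, ∀ x y, S.Adj x y → a x y = φ y - φ x

/-- The edge-midpoint subdivision: three corner triangles and a central one in each triangle. -/
def sub (S : Srf) : Srf where
  V := Sym2 S.V
  T := fun a b c => ∃ x y z, S.T x y z ∧
    ((a = s(x, x) ∧ b = s(x, y) ∧ c = s(x, z)) ∨ (b = s(x, x) ∧ c = s(x, y) ∧ a = s(x, z)) ∨
      (c = s(x, x) ∧ a = s(x, y) ∧ b = s(x, z)) ∨ (a = s(x, y) ∧ b = s(y, z) ∧ c = s(z, x)))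

/-- The iterated subdivision. -/
def it (S : Srf) : ℕ → Srf
  | 0 => S
  | k + 1 => (S.it k).sub

/-- The old vertex `x` in the iterated subdivision. -/
def io (S : Srf) : (k : ℕ) → S.V → (S.it k).V
  | 0, x => x
  | k + 1, x => Sym2.diag (S.io k x)

/-- The neighbour of the old vertex `x` in the direction of its old neighbour `y`. -/
def dir (S : Srf) : (k : ℕ) → S.V → S.V → (S.it k).V
  | 0, _, y => y
  | k + 1, x, y => s(S.io k x, S.dir k x y)

/-- The carrier: the vertices of the smallest old simplex containing the point. -/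
def car (S : Srf) : (k : ℕ) → (S.it k).V → Set S.V
  | 0, x => {x}
  | k + 1, e => {v | ∃ x : (S.it k).V, Sym2.Mem x e ∧ v ∈ S.car k x}

/-- Midpoint map to a real vector space. -/
noncomputable def midp {X E : Type} [AddCommGroup E] [Module ℝ E] (f : X → E) : Sym2 X → E :=
  Sym2.lift ⟨fun x y => (1 / 2 : ℝ) • (f x + f y), fun x y => congrArg _ (add_comm (f x) (f y))⟩

/-- The affine extension of a map of the old vertices to the iterated subdivision. -/
noncomputable def pos (S : Srf) {E : Type} [AddCommGroup E] [Module ℝ E] (f : S.V → E) :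
    (k : ℕ) → (S.it k).V → E
  | 0 => f
  | k + 1 => midp (S.pos f k)

/-- Functoriality for maps of the vertices. -/
def mp (S S' : Srf) (f : S.V → S'.V) : (k : ℕ) → (S.it k).V → (S'.it k).V
  | 0 => f
  | k + 1 => Sym2.map (mp S S' f k)

/-- The subdivision of a walk. -/
def sd {X : Type} : List X → List (Sym2 X)
  | [] => []
  | [a] => [s(a, a)]
  | a :: b :: l => s(a, a) :: s(a, b) :: sd (b :: l)

/-- The iterated subdivision of a walk. -/
def sdk (S : Srf) : (k : ℕ) → List S.V → List (S.it k).V
  | 0, l => l
  | k + 1, l => sd (S.sdk k l)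

/-- Walks. -/
def Wlk (S : Srf) (l : List S.V) : Prop := l.IsChain S.Adj

/-- The sum of a cochain along a walk. -/
def wsum {X A : Type} [AddCommGroup A] (b : X → X → A) : List X → A
  | [] => 0
  | [_] => 0
  | x :: y :: l => b x y + wsum b (y :: l)

/-- `y` is strictly between `u` and `v` in the counterclockwise rotation at `x`: it is reached from
`u` by steps of the rotation before `v`. -/
def Btw (S : Srf) (x u v y : S.V) : Prop :=
  u ≠ v ∧ y ≠ u ∧ Relation.TransGen (fun p q => S.T x p q ∧ q ≠ v) u y

/-- A cochain `b` (antisymmetric, closed on all triangles not containing `g`, nonzero sum around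
`g`) whose sums along the two walks agree: the two walks, which have the same ends, form a closed
walk of winding number `0` about `g`. -/
def NullAt (S : Srf) (g : S.V) (P π : List S.V) : Prop :=
  g ∉ P ∧ g ∉ π ∧ ∃ b : S.V → S.V → ℤ, (∀ x y, b y x = -b x y) ∧
    (∀ x y z, S.T x y z → x ≠ g → y ≠ g → z ≠ g → b x y + b y z + b z x = 0) ∧
    (∑ᶠ p : S.V × S.V, (∑ᶠ _ : S.T g p.1 p.2, b p.1 p.2)) ≠ 0 ∧ wsum b P = wsum b π

end Srf

end URW
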