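import Pool.Agent.URW.Srf.Defs2

/-!
# URW Srf: the rotation at a vertex

Problem MP_fc0f29_gt; architect helper65. `T x p q` means that `q` is the next neighbour of `x` after
`p` in the counterclockwise rotation. `Btw x u v y`: there is a chain `u, ..., y` of steps `T x p q`
with `q ≠ v` (`Relation.TransGen`), and `u ≠ v`, `y ≠ u`.

PROOFS. `adj_symm`: `opp`. `T_adj`: `rot` and `adj_symm`. `pred_unique`: `rot` twice (`T z x y`) and
`uniq`. `exists_pred`: `adj_symm` gives `T z x y`, so `T x y z` (rotate). `btw_ne`: the last step.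
`btw_adj`: the last step `T x p y`, so `Adj x y` (`T_adj`). `btw_step`: `TransGen.tail`.
`btw_step'`: the last step `T x p z ∧ z ≠ v` has `p = y` (`pred_unique`); the chain is longer than one
step as `u ≠ y`. `btw_excl`: induction over the first chain (from `u` to `y`), for all `y`: the last step
of the second chain `v, ..., y` has the same predecessor (`pred_unique`). First chain one step
(`T x u y`): then the second chain reaches `u`, either `v = u` or `u` is a target of a step, impossible
as targets are `≠ u`. First chain `u, ..., y', y`: the second chain reaches `y'`, either `v = y'`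
(impossible, targets of the first chain are `≠ v`) or by the induction hypothesis False.
`btw_total`: induction over the chain from `u` given by `link` (`ReflTransGen`), claim for
every `w`: `w = u ∨ w = v ∨ Btw x u v w ∨ Btw x v u w`; step `T x w w'`: if `w' ∉ {u, v}`: `w = u`
gives `Btw x u v w'` (one step), `w = v` gives `Btw x v u w'`, otherwise `btw_step`.
`btw_pred`: `ReflTransGen.head_induction_on` for the chain from `u` to `v` given by `link`, claim for
every `w` on it: `w = v ∨ w = y ∨ TransGen (fun p q => T x p q ∧ q ≠ v) w y`; step `T x w w'`: if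
`w' = v` then `w = y` (`pred_unique`); if `w' = y` one step (`y ≠ v` by `T_ne`); otherwise prepend the
step. `btw_succ`: one step. `btw_const`: induction over the chain, for all `y`.
-/

set_option autoImplicit false

namespace URW

namespace Srf

variable {S : Srf} {x y z u v y' : S.V}

theorem Good.adj_symm (hS : S.Good) (h : S.Adj x y) : S.Adj y x := by
  obtain ⟨z, hz⟩ := h
  exact hS.opp _ _ _ hz

theorem Good.T_adj (hS : S.Good) (h : S.T x y z) : S.Adj x y ∧ S.Adj y z ∧ S.Adj z x ∧ S.Adj x z ∧
    S.Adj y x ∧ S.Adj z y := by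
  have h1 := hS.rot _ _ _ h
  have h2 := hS.rot _ _ _ h1
  have a1 : S.Adj x y := ⟨z, h⟩
  have a2 : S.Adj y z := ⟨x, h1⟩
  have a3 : S.Adj z x := ⟨y, h2⟩
  exact ⟨a1, a2, a3, hS.adj_symm a3, hS.adj_symm a1, hS.adj_symm a2⟩

theorem Good.T_ne (hS : S.Good) (h : S.T x y z) : x ≠ y ∧ y ≠ z ∧ z ≠ x := by
  have h1 := hS.rot _ _ _ h
  have h2 := hS.rot _ _ _ h1
  exact ⟨hS.ne _ _ _ h, hS.ne _ _ _ h1, hS.ne _ _ _ h2⟩

theorem Good.adj_ne (hS : S.Good) (h : S.Adj x y) : x ≠ y := by
  obtain ⟨z, hz⟩ := h
  exact hS.ne _ _ _ hz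

theorem Good.pred_unique (hS : S.Good) (h : S.T x y z) (h' : S.T x y' z) : y = y' := by
  have h1 := hS.rot _ _ _ (hS.rot _ _ _ h)
  have h2 := hS.rot _ _ _ (hS.rot _ _ _ h')
  exact hS.uniq _ _ _ _ h1 h2

theorem Good.exists_pred (hS : S.Good) (h : S.Adj x z) : ∃ y, S.T x y z := by
  obtain ⟨y, hy⟩ := hS.adj_symm h
  exact ⟨y, hS.rot _ _ _ hy⟩

theorem btw_ne (h : S.Btw x u v y) : y ≠ v := by
  obtain ⟨_, _, h3⟩ := h
  cases h3 with
  | single h => exact h.2
  | tail _ h => exact h.2

theorem btw_adj (hS : S.Good) (h : S.Btw x u v y) : S.Adj x y := by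
  obtain ⟨_, _, h3⟩ := h
  cases h3 with
  | single h => exact (hS.T_adj h.1).2.2.2.1
  | tail _ h => exact (hS.T_adj h.1).2.2.2.1

theorem btw_step (h : S.T x y z) (hu : z ≠ u) (hv : z ≠ v) (hb : S.Btw x u v y) :
    S.Btw x u v z :=
  ⟨hb.1, hu, hb.2.2.tail ⟨h, hv⟩⟩

theorem btw_step' (hS : S.Good) (h : S.T x y z) (hu : y ≠ u) (hb : S.Btw x u v z) :
    S.Btw x u v y := by
  obtain ⟨h1, h2, h3⟩ := hb
  cases h3 with
  | single h' => exact absurd (hS.pred_unique h h'.1) hu
  | @tail p _ h4 h' =>
    have e : y = p := hS.pred_unique h h'.1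
    subst e
    exact ⟨h1, hu, h4⟩

theorem btw_excl (hS : S.Good) (h : S.Btw x u v y) : ¬ S.Btw x v u y := by
  obtain ⟨h1, _, h3⟩ := h
  rintro ⟨_, _, h4⟩
  clear * - hS h1 h3 h4
  induction h3 with
  | single h =>
    cases h4 with
    | single h' => exact h1 (hS.pred_unique h.1 h'.1)
    | @tail p _ h5 h' =>
      have e := hS.pred_unique h.1 h'.1
      subst e
      cases h5 with
      | single h6 => exact h6.2 rfl
      | tail _ h6 => exact h6.2 rfl
  | @tail a b h5 h6 ih =>
    cases h4 with
    | single h' =>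
      have e := hS.pred_unique h6.1 h'.1
      subst e
      cases h5 with
      | single h6 => exact h6.2 rfl
      | tail _ h6 => exact h6.2 rfl
    | @tail p _ h7 h' =>
      have e := hS.pred_unique h6.1 h'.1
      subst e
      exact ih h7

theorem btw_total (hS : S.Good) (hu : S.Adj x u) (huv : u ≠ v) (hy : S.Adj x y) (h1 : y ≠ u)
    (h2 : y ≠ v) : S.Btw x u v y ∨ S.Btw x v u y := by
  have key : ∀ w, Relation.ReflTransGen (fun p q => S.T x p q) u w →
      w = u ∨ w = v ∨ S.Btw x u v w ∨ S.Btw x v u w := by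
    intro w hw
    induction hw with
    | refl => exact Or.inl rfl
    | @tail b c _ hbc ih =>
      by_cases hcu : c = u
      · exact Or.inl hcu
      by_cases hcv : c = v
      · exact Or.inr (Or.inl hcv)
      rcases ih with e | e | hb | hb
      · subst e
        exact Or.inr (Or.inr (Or.inl ⟨huv, hcu, Relation.TransGen.single ⟨hbc, hcv⟩⟩))
      · subst e
        exact Or.inr (Or.inr (Or.inr ⟨huv.symm, hcv, Relation.TransGen.single ⟨hbc, hcu⟩⟩))
      · exact Or.inr (Or.inr (Or.inl (btw_step hbc hcu hcv hb)))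
      · exact Or.inr (Or.inr (Or.inr (btw_step hbc hcv hcu hb)))
  rcases key y (hS.link x u y hu hy) with e | e | hb | hb
  · exact absurd e h1
  · exact absurd e h2
  · exact Or.inl hb
  · exact Or.inr hb

/-- the predecessor of `v` is between `u` and `v` -/
theorem btw_pred (hS : S.Good) (hu : S.Adj x u) (huv : u ≠ v) (h : S.T x y v) (hy : y ≠ u) :
    S.Btw x u v y := by
  have hxv : S.Adj x v := (hS.T_adj h).2.2.2.1
  have key : u = v ∨ u = y ∨
      Relation.TransGen (fun p q => S.T x p q ∧ q ≠ v) u y := by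
    refine Relation.ReflTransGen.head_induction_on (motive := fun w _ => w = v ∨ w = y ∨
      Relation.TransGen (fun p q => S.T x p q ∧ q ≠ v) w y) (hS.link x u v hu hxv) ?_ ?_
    · exact Or.inl rfl
    · intro w w' hw _ ih
      by_cases hv : w' = v
      · subst hv
        exact Or.inr (Or.inl (hS.pred_unique hw h))
      rcases ih with e | e | ht
      · exact absurd e hv
      · subst e
        exact Or.inr (Or.inr (Relation.TransGen.single ⟨hw, hv⟩))
      · exact Or.inr (Or.inr (Relation.TransGen.head ⟨hw, hv⟩ ht))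
  rcases key with e | e | ht
  · exact absurd e huv
  · exact absurd e.symm hy
  · exact ⟨huv, hy, ht⟩

/-- the successor of `u` is between `u` and `v` -/
theorem btw_succ (hS : S.Good) (huv : u ≠ v) (h : S.T x u y) (hy : y ≠ v) : S.Btw x u v y := by
  exact ⟨huv, (hS.T_ne h).2.1.symm, Relation.TransGen.single ⟨h, hy⟩⟩

/-- a function which is constant along the steps is constant -/
theorem btw_const {B : Type} (f : S.V → B) (hf : ∀ p q, S.T x p q → q ≠ u → q ≠ v → f q = f p)
    (h : S.Btw x u v y) : f y = f u := by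
  obtain ⟨-, -, h3⟩ := h
  induction h3 with
  | @single b h =>
    by_cases hb : b = u
    · rw [hb]
    · exact hf _ _ h.1 hb h.2
  | @tail b c _ h ih =>
    by_cases hc : c = u
    · rw [hc]
    · rw [hf _ _ h.1 hc h.2]
      exact ih

/-- the pairs of consecutive neighbours of `g` form a finite set -/
theorem Good.lk_fin (hS : S.Good) (g : S.V) : {p : S.V × S.V | S.T g p.1 p.2}.Finite := by
  refine ((hS.locfin g).prod (hS.locfin g)).subset ?_
  rintro ⟨p, q⟩ h
  exact ⟨(hS.T_adj h).1, (hS.T_adj h).2.2.2.1⟩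

end Srf

end URW
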