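import Pool.Agent.URW.Srf.Lst
import Pool.Agent.URW.Srf.Rot

/-!
# URW Srf: a 2-chain with boundary `w - w'`

Problem MP_fc0f29_gt; architect helper65.

PROOF of `exists_chn`. Let `G = (V × V →₀ ℤ)`, `e x y = single (x, y) 1`,
`B = AddSubgroup.closure {z | (∃ x y, z = e x y + e y x) ∨ ∃ x y t, T x y t ∧ z = e x y + e y t + e t x}`,
`A = G ⧸ B`, `a x y = mk (e x y) : A`. `a` is antisymmetric and closed on all triangles, so
`hS.exact` gives `φ : V → A` with `a x y = φ y - φ x` for adjacent `x, y`. By `wsum_tele` (with `Nx.chain`)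
`wsum a w = φ t - φ s = wsum a w'`, and `wsum a w = mk (wsum e w)` by `wsum_map`; so
`wsum e w - wsum e w' ∈ B` (`QuotientAddGroup.eq`). Now prove by `AddSubgroup.closure_induction` that every
`z ∈ B` satisfies
 `Q z : ∃ F, (∀ x y t, T x y t → F x y = F y t) ∧ (∀ x y, Adj x y → F x y - F y x = z (x, y) - z (y, x)) ∧
  ∀ (A : Type) [AddCommGroup A] (u : V → V → A), (∀ x y, u y x = -u x y) → ∀ Γ ..., (closed away from Γ) →
   z.sum (fun p n => n • u p.1 p.2) = ∑ g ∈ Γ, ∑ᶠ p, ∑ᶠ _ : T g p.1 p.2, F g p.1 • (u g p.1 + ...)`.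
(`z.sum (fun p n => n • u p.1 p.2)` is `ev u z` for the homomorphism
`ev u = Finsupp.liftAddHom fun p => (zmultiplesHom A (u p.1 p.2))`, use the form which you like.)
* `z = e x y + e y x`: `F = 0`; both sides of the pairing are `0`.
* `z = e x y + e y t + e t x`, `T x y t`: `F p q = if (p, q) ∈ {(x, y), (y, t), (t, x)} then 1 else 0`; it is
 invariant by `uniq` and `rot`. For adjacent `p, q`: `z (p, q) = F p q` (the three pairs are different).
 Pairing: if `x, y, t ∉ Γ` then `ev u z = u x y + u y t + u t x = 0`, and all terms of the right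
 hand side are `0` (`F g p.1 ≠ 0` implies `g ∈ {x, y, t}`). Otherwise exactly one of `x, y, t` is in `Γ`
 (they are adjacent); say `x ∈ Γ`: only the term `g = x`, `p = (y, t)` is not `0` (`F g p.1 ≠ 0` and
 `g ∈ Γ` imply `g = x`, `p.1 = y`; `p.2 = t` by `uniq`); by symmetry (rotate the triangle) it is
 enough to do this case.
* `0`, sums, negatives: `F = 0`, `F + F'`, `-F`; the inner sums are finite (`lk_fin`), so turn the
 finsums into `Finset` sums over `(hS.lk_fin g).toFinset` first (`lk_sum` below).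
Finally for `z = wsum e w - wsum e w'`: `z (p, q) = cnt w p q - cnt w' p q` (`wsum_map` with the
evaluation at `(p, q)`, `Finsupp.single_apply`, `Prod.mk.injEq`), `ev u z = wsum u w - wsum u w'`
(`wsum_map`).

`lk_sum`: `finsum_mem_eq_finite_toFinset_sum`. `link_sum`: both projections are bijections of the set
`L = {p | T g p.1 p.2}` onto the set of the neighbours of `g` (`uniq`, `pred_unique`, `exists_pred`), so
`∑_L u g p.1 = ∑_L u g p.2` (`Finset.sum_nbij'` or `sum_image`), and `u p.2 g = -u g p.2`.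
-/

set_option autoImplicit false

namespace URW

namespace Srf

variable {S : Srf}

/-- the sum over the link as a finite sum -/
theorem lk_sum (hS : S.Good) (g : S.V) {A : Type} [AddCommGroup A] (f : S.V × S.V → A) :
    (∑ᶠ p : S.V × S.V, ∑ᶠ _ : S.T g p.1 p.2, f p) = ∑ p ∈ (hS.lk_fin g).toFinset, f p :=
  finsum_mem_eq_finite_toFinset_sum f (hS.lk_fin g)

private theorem mem_lk (hS : S.Good) {g : S.V} {p : S.V × S.V} :
    p ∈ (hS.lk_fin g).toFinset ↔ S.T g p.1 p.2 :=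
  (hS.lk_fin g).mem_toFinset

theorem link_sum (hS : S.Good) (g : S.V) {A : Type} [AddCommGroup A] (u : S.V → S.V → A)
    (hu : ∀ x y, u y x = -u x y) :
    (∑ᶠ p : S.V × S.V, ∑ᶠ _ : S.T g p.1 p.2, (u g p.1 + u p.1 p.2 + u p.2 g)) =
      ∑ᶠ p : S.V × S.V, ∑ᶠ _ : S.T g p.1 p.2, u p.1 p.2 := by
  classical
  have r1 := lk_sum hS g (fun p : S.V × S.V => u g p.1 + u p.1 p.2 + u p.2 g)
  have r2 := lk_sum hS g (fun p : S.V × S.V => u p.1 p.2)
  rw [r1, r2]
  have i1 : Set.InjOn Prod.fst ((hS.lk_fin g).toFinset : Set (S.V × S.V)) := by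
    intro p hp q hq h
    have hp' := (mem_lk hS).1 (Finset.mem_coe.1 hp)
    have hq' := (mem_lk hS).1 (Finset.mem_coe.1 hq)
    rw [← h] at hq'
    exact Prod.ext h (hS.uniq _ _ _ _ hp' hq')
  have i2 : Set.InjOn Prod.snd ((hS.lk_fin g).toFinset : Set (S.V × S.V)) := by
    intro p hp q hq h
    have hp' := (mem_lk hS).1 (Finset.mem_coe.1 hp)
    have hq' := (mem_lk hS).1 (Finset.mem_coe.1 hq)
    rw [← h] at hq'
    exact Prod.ext (hS.pred_unique hp' hq') h
  have e : (hS.lk_fin g).toFinset.image Prod.fst = (hS.lk_fin g).toFinset.image Prod.snd := by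
    ext y
    rw [Finset.mem_image, Finset.mem_image]
    constructor
    · rintro ⟨p, hp, rfl⟩
      obtain ⟨z, hz⟩ := hS.exists_pred (hS.T_adj ((mem_lk hS).1 hp)).1
      exact ⟨(z, p.1), (mem_lk hS).2 hz, rfl⟩
    · rintro ⟨p, hp, rfl⟩
      obtain ⟨z, hz⟩ := (hS.T_adj ((mem_lk hS).1 hp)).2.2.2.1
      exact ⟨(p.2, z), (mem_lk hS).2 hz, rfl⟩
  have h1 : ∑ p ∈ (hS.lk_fin g).toFinset, u g p.1 = ∑ p ∈ (hS.lk_fin g).toFinset, u g p.2 := by
    rw [← Finset.sum_image (f := fun y => u g y) i1, ← Finset.sum_image (f := fun y => u g y) i2,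
      e]
  have h2 : ∑ p ∈ (hS.lk_fin g).toFinset, u p.2 g = -∑ p ∈ (hS.lk_fin g).toFinset, u g p.2 := by
    rw [← Finset.sum_neg_distrib]
    exact Finset.sum_congr rfl fun p _ => hu _ _
  rw [Finset.sum_add_distrib, Finset.sum_add_distrib, h2, h1]
  abel

/-- the value of a cochain on a chain -/
private noncomputable def ev {V A : Type} [AddCommGroup A] (u : V → V → A) :
    (V × V →₀ ℤ) →+ A :=
  Finsupp.liftAddHom fun p : V × V => zmultiplesHom A (u p.1 p.2)

private theorem ev_single {V A : Type} [AddCommGroup A] (u : V → V → A) (x y : V) :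
    ev u (Finsupp.single (x, y) 1) = u x y := by
  unfold ev
  rw [Finsupp.liftAddHom_apply_single]
  simp

/-- the property of the boundaries -/
private def Qz (S : Srf) (z : S.V × S.V →₀ ℤ) : Prop :=
  ∃ F : S.V → S.V → ℤ, (∀ x y t, S.T x y t → F x y = F y t) ∧
    (∀ x y, S.Adj x y → F x y - F y x = z (x, y) - z (y, x)) ∧
    ∀ (A : Type) [AddCommGroup A] (u : S.V → S.V → A), (∀ x y, u y x = -u x y) →
      ∀ Γ : Finset S.V, (∀ g ∈ Γ, ∀ g' ∈ Γ, ¬ S.Adj g g') →
      (∀ x y z, S.T x y z → x ∉ Γ → y ∉ Γ → z ∉ Γ → u x y + u y z + u z x = 0) →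
      ev u z = ∑ g ∈ Γ, ∑ᶠ p : S.V × S.V, ∑ᶠ _ : S.T g p.1 p.2,
        F g p.1 • (u g p.1 + u p.1 p.2 + u p.2 g)

private theorem Qz_zero (hS : S.Good) : Qz S 0 := by
  refine ⟨fun _ _ => 0, fun _ _ _ _ => rfl, fun _ _ _ => by simp, ?_⟩
  intro A _ u _ Γ _ _
  rw [map_zero]
  refine (Finset.sum_eq_zero fun g _ => ?_).symm
  have h := lk_sum hS g (fun p : S.V × S.V => (0 : ℤ) • (u g p.1 + u p.1 p.2 + u p.2 g))
  rw [h]
  exact Finset.sum_eq_zero fun p _ => zero_smul _ _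

private theorem Qz_add (hS : S.Good) {z z' : S.V × S.V →₀ ℤ} (h : Qz S z) (h' : Qz S z') :
    Qz S (z + z') := by
  obtain ⟨F, h1, h2, h3⟩ := h
  obtain ⟨F', h1', h2', h3'⟩ := h'
  refine ⟨fun x y => F x y + F' x y, fun x y t ht => by
      show F x y + F' x y = F y t + F' y t
      rw [h1 x y t ht, h1' x y t ht], fun x y hxy => ?_, ?_⟩
  · have a1 := h2 x y hxy
    have a2 := h2' x y hxy
    rw [Finsupp.add_apply, Finsupp.add_apply]
    linarith
  · intro A _ u hu Γ hΓ hc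
    rw [map_add, h3 A u hu Γ hΓ hc, h3' A u hu Γ hΓ hc, ← Finset.sum_add_distrib]
    refine Finset.sum_congr rfl fun g _ => ?_
    have r1 := lk_sum hS g (fun p : S.V × S.V => F g p.1 • (u g p.1 + u p.1 p.2 + u p.2 g))
    have r2 := lk_sum hS g (fun p : S.V × S.V => F' g p.1 • (u g p.1 + u p.1 p.2 + u p.2 g))
    have r3 := lk_sum hS g
      (fun p : S.V × S.V => (F g p.1 + F' g p.1) • (u g p.1 + u p.1 p.2 + u p.2 g))
    rw [r1, r2, r3, ← Finset.sum_add_distrib]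
    exact Finset.sum_congr rfl fun p _ => (add_smul _ _ _).symm

private theorem Qz_neg (hS : S.Good) {z : S.V × S.V →₀ ℤ} (h : Qz S z) : Qz S (-z) := by
  obtain ⟨F, h1, h2, h3⟩ := h
  refine ⟨fun x y => -F x y, fun x y t ht => by
      show -F x y = -F y t
      rw [h1 x y t ht], fun x y hxy => ?_, ?_⟩
  · have a1 := h2 x y hxy
    rw [Finsupp.neg_apply, Finsupp.neg_apply]
    linarith
  · intro A _ u hu Γ hΓ hc
    rw [map_neg, h3 A u hu Γ hΓ hc, ← Finset.sum_neg_distrib]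
    refine Finset.sum_congr rfl fun g _ => ?_
    have r1 := lk_sum hS g (fun p : S.V × S.V => F g p.1 • (u g p.1 + u p.1 p.2 + u p.2 g))
    have r3 := lk_sum hS g
      (fun p : S.V × S.V => (-F g p.1) • (u g p.1 + u p.1 p.2 + u p.2 g))
    rw [r1, r3, ← Finset.sum_neg_distrib]
    exact Finset.sum_congr rfl fun p _ => (neg_smul _ _).symm

private theorem Qz_sym (hS : S.Good) (x y : S.V) :
    Qz S (Finsupp.single (x, y) 1 + Finsupp.single (y, x) 1) := by
  classical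
  refine ⟨fun _ _ => 0, fun _ _ _ _ => rfl, fun p q _ => ?_, ?_⟩
  · simp only [Finsupp.add_apply, Finsupp.single_apply, Prod.mk.injEq]
    have e1 : (x = p ∧ y = q) ↔ (y = q ∧ x = p) := and_comm
    have e2 : (y = p ∧ x = q) ↔ (x = q ∧ y = p) := and_comm
    simp only [e1, e2]
    ring
  · intro A _ u hu Γ _ _
    rw [map_add, ev_single, ev_single, hu x y, add_neg_cancel]
    refine (Finset.sum_eq_zero fun g _ => ?_).symm
    have h := lk_sum hS g (fun p : S.V × S.V => (0 : ℤ) • (u g p.1 + u p.1 p.2 + u p.2 g))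
    rw [h]
    exact Finset.sum_eq_zero fun p _ => zero_smul _ _

open Classical in
/-- the indicator of a triangle -/
private noncomputable def Ft {V : Type} (x y t p q : V) : ℤ :=
  if (p = x ∧ q = y) ∨ (p = y ∧ q = t) ∨ (p = t ∧ q = x) then 1 else 0

private theorem Ft_rot {V : Type} (x y t p q : V) : Ft x y t p q = Ft y t x p q := by
  unfold Ft
  have h : ((p = x ∧ q = y) ∨ (p = y ∧ q = t) ∨ (p = t ∧ q = x)) ↔
      ((p = y ∧ q = t) ∨ (p = t ∧ q = x) ∨ (p = x ∧ q = y)) := by tauto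
  by_cases hc : (p = x ∧ q = y) ∨ (p = y ∧ q = t) ∨ (p = t ∧ q = x)
  · rw [if_pos hc, if_pos (h.1 hc)]
  · rw [if_neg hc, if_neg fun e => hc (h.2 e)]

private theorem Ft_one {V : Type} {x y t p q : V}
    (h : (p = x ∧ q = y) ∨ (p = y ∧ q = t) ∨ (p = t ∧ q = x)) : Ft x y t p q = 1 := if_pos h

private theorem Ft_zero {V : Type} {x y t p q : V}
    (h : ¬ ((p = x ∧ q = y) ∨ (p = y ∧ q = t) ∨ (p = t ∧ q = x))) : Ft x y t p q = 0 := if_neg h

private theorem inner1 (hS : S.Good) {x y t : S.V} (h : S.T x y t) {A : Type} [AddCommGroup A]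
    (u : S.V → S.V → A) :
    (∑ᶠ p : S.V × S.V, ∑ᶠ _ : S.T x p.1 p.2, Ft x y t x p.1 • (u x p.1 + u p.1 p.2 + u p.2 x)) =
      u x y + u y t + u t x := by
  have r1 := lk_sum hS x (fun p : S.V × S.V => Ft x y t x p.1 • (u x p.1 + u p.1 p.2 + u p.2 x))
  have hn := hS.T_ne h
  rw [r1, Finset.sum_eq_single (y, t)]
  · rw [Ft_one (Or.inl ⟨rfl, rfl⟩), one_smul]
  · intro p hp hne
    rw [Ft_zero, zero_smul]
    rintro (⟨-, h1⟩ | ⟨h1, -⟩ | ⟨h1, -⟩)
    · have h2 := (mem_lk hS).1 hp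
      rw [h1] at h2
      exact hne (Prod.ext h1 (hS.uniq _ _ _ _ h2 h))
    · exact hn.1 h1
    · exact hn.2.2 h1.symm
  · intro hp
    exact absurd ((mem_lk hS).2 h) hp

private theorem inner0 (hS : S.Good) {x y t g : S.V} (h1 : g ≠ x) (h2 : g ≠ y) (h3 : g ≠ t)
    {A : Type} [AddCommGroup A] (u : S.V → S.V → A) :
    (∑ᶠ p : S.V × S.V, ∑ᶠ _ : S.T g p.1 p.2, Ft x y t g p.1 • (u g p.1 + u p.1 p.2 + u p.2 g)) =
      0 := by
  have r1 := lk_sum hS g (fun p : S.V × S.V => Ft x y t g p.1 • (u g p.1 + u p.1 p.2 + u p.2 g))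
  rw [r1]
  refine Finset.sum_eq_zero fun p _ => ?_
  rw [Ft_zero, zero_smul]
  rintro (⟨h, -⟩ | ⟨h, -⟩ | ⟨h, -⟩)
  · exact h1 h
  · exact h2 h
  · exact h3 h

/-- the pairing for a triangle with a vertex in `Γ` -/
private theorem pair1 (hS : S.Good) {x y t : S.V} (h : S.T x y t) {A : Type} [AddCommGroup A]
    (u : S.V → S.V → A) {Γ : Finset S.V} (hΓ : ∀ g ∈ Γ, ∀ g' ∈ Γ, ¬ S.Adj g g') (hx : x ∈ Γ) :
    (∑ g ∈ Γ, ∑ᶠ p : S.V × S.V, ∑ᶠ _ : S.T g p.1 p.2,
      Ft x y t g p.1 • (u g p.1 + u p.1 p.2 + u p.2 g)) = u x y + u y t + u t x := by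
  have ha := hS.T_adj h
  rw [Finset.sum_eq_single x, inner1 hS h]
  · intro g hg hgx
    refine inner0 hS hgx ?_ ?_ u
    · rintro rfl
      exact hΓ x hx g hg ha.1
    · rintro rfl
      exact hΓ x hx g hg ha.2.2.2.1
  · intro hx'
    exact absurd hx hx'

private theorem Qz_tri (hS : S.Good) {x y t : S.V} (h : S.T x y t) :
    Qz S (Finsupp.single (x, y) 1 + Finsupp.single (y, t) 1 + Finsupp.single (t, x) 1) := by
  classical
  have hn := hS.T_ne h
  have h' := hS.rot _ _ _ h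
  have h'' := hS.rot _ _ _ h'
  refine ⟨Ft x y t, ?_, ?_, ?_⟩
  · intro p q r hpq
    have hqr := hS.rot _ _ _ hpq
    have hrp := hS.rot _ _ _ hqr
    by_cases h1 : (p = x ∧ q = y) ∨ (p = y ∧ q = t) ∨ (p = t ∧ q = x)
    · rw [Ft_one h1]
      rcases h1 with ⟨rfl, rfl⟩ | ⟨rfl, rfl⟩ | ⟨rfl, rfl⟩
      · exact (Ft_one (Or.inr (Or.inl ⟨rfl, hS.uniq _ _ _ _ hpq h⟩))).symm
      · exact (Ft_one (Or.inr (Or.inr ⟨rfl, hS.uniq _ _ _ _ hpq h'⟩))).symm
      · exact (Ft_one (Or.inl ⟨rfl, hS.uniq _ _ _ _ hpq h''⟩)).symm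
    · rw [Ft_zero h1, Ft_zero]
      rintro (⟨rfl, rfl⟩ | ⟨rfl, rfl⟩ | ⟨rfl, rfl⟩)
      · exact h1 (Or.inr (Or.inr ⟨hS.uniq _ _ _ _ hqr h, rfl⟩))
      · exact h1 (Or.inl ⟨hS.uniq _ _ _ _ hqr h', rfl⟩)
      · exact h1 (Or.inr (Or.inl ⟨hS.uniq _ _ _ _ hqr h'', rfl⟩))
  · have hz : ∀ p q : S.V, (Finsupp.single (x, y) (1 : ℤ) + Finsupp.single (y, t) 1 +
        Finsupp.single (t, x) 1 : S.V × S.V →₀ ℤ) (p, q) = Ft x y t p q := by
      intro p q
      simp only [Finsupp.add_apply, Finsupp.single_apply, Prod.mk.injEq]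
      by_cases h1 : (p = x ∧ q = y) ∨ (p = y ∧ q = t) ∨ (p = t ∧ q = x)
      · rw [Ft_one h1]
        rcases h1 with ⟨rfl, rfl⟩ | ⟨rfl, rfl⟩ | ⟨rfl, rfl⟩
        · rw [if_pos ⟨rfl, rfl⟩, if_neg fun e => hn.1 e.1.symm, if_neg fun e => hn.2.2 e.1]
          norm_num
        · rw [if_neg fun e => hn.1 e.1, if_pos ⟨rfl, rfl⟩, if_neg fun e => hn.2.1 e.1.symm]
          norm_num
        · rw [if_neg fun e => hn.2.2 e.1.symm, if_neg fun e => hn.2.1 e.1, if_pos ⟨rfl, rfl⟩]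
          norm_num
      · rw [Ft_zero h1, if_neg, if_neg, if_neg]
        · norm_num
        · rintro ⟨rfl, rfl⟩
          exact h1 (Or.inr (Or.inr ⟨rfl, rfl⟩))
        · rintro ⟨rfl, rfl⟩
          exact h1 (Or.inr (Or.inl ⟨rfl, rfl⟩))
        · rintro ⟨rfl, rfl⟩
          exact h1 (Or.inl ⟨rfl, rfl⟩)
    intro p q _
    rw [hz, hz]
  · intro A _ u hu Γ hΓ hc
    rw [map_add, map_add, ev_single, ev_single, ev_single]
    by_cases hx : x ∈ Γ
    · exact (pair1 hS h u hΓ hx).symm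
    by_cases hy : y ∈ Γ
    · have h1 := pair1 hS h' u hΓ hy
      simp only [← Ft_rot x y t] at h1
      rw [h1]
      abel
    by_cases ht : t ∈ Γ
    · have h1 := pair1 hS h'' u hΓ ht
      simp only [← Ft_rot y t x, ← Ft_rot x y t] at h1
      rw [h1]
      abel
    rw [hc x y t h hx hy ht]
    refine (Finset.sum_eq_zero fun g hg => inner0 hS ?_ ?_ ?_ u).symm
    · rintro rfl
      exact hx hg
    · rintro rfl
      exact hy hg
    · rintro rfl
      exact ht hg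

private theorem ev_wsum {V A : Type} [AddCommGroup A] (u : V → V → A) (w : List V) :
    ev u (wsum (fun x y => Finsupp.single (x, y) (1 : ℤ)) w) = wsum u w := by
  rw [wsum_map]
  exact wsum_congr fun p q _ => ev_single u p q

private theorem cnt_wsum {V : Type} (w : List V) (p q : V) :
    (wsum (fun x y => Finsupp.single (x, y) (1 : ℤ)) w) (p, q) = cnt w p q := by
  classical
  have h := wsum_map (Finsupp.applyAddHom (M := ℤ) (p, q))
    (fun x y => Finsupp.single (x, y) (1 : ℤ)) w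
  rw [Finsupp.applyAddHom_apply] at h
  rw [h]
  unfold cnt
  refine wsum_congr fun x y _ => ?_
  rw [Finsupp.applyAddHom_apply, Finsupp.single_apply]
  by_cases h1 : x = p ∧ y = q
  · rw [if_pos h1, if_pos (Prod.ext h1.1 h1.2)]
  · rw [if_neg h1, if_neg fun e => h1 ⟨congrArg Prod.fst e, congrArg Prod.snd e⟩]

theorem exists_chn (hS : S.Good) {w w' : List S.V} (h : S.Wlk w) (h' : S.Wlk w') {s t : S.V}
    (hs : w.head? = some s) (ht : w.getLast? = some t) (hs' : w'.head? = some s)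
    (ht' : w'.getLast? = some t) : ∃ F, S.Chn w w' F := by
  obtain ⟨B, hB⟩ : ∃ B : AddSubgroup (S.V × S.V →₀ ℤ), B = AddSubgroup.closure
      {z | (∃ x y, z = Finsupp.single (x, y) 1 + Finsupp.single (y, x) 1) ∨
        ∃ x y t, S.T x y t ∧ z = Finsupp.single (x, y) 1 + Finsupp.single (y, t) 1 +
          Finsupp.single (t, x) 1} := ⟨_, rfl⟩
  have hQ : ∀ z ∈ B, Qz S z := by
    intro z hz
    rw [hB] at hz
    induction hz using AddSubgroup.closure_induction with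
    | mem z hz =>
      rcases hz with ⟨x, y, rfl⟩ | ⟨x, y, t, hT, rfl⟩
      · exact Qz_sym hS x y
      · exact Qz_tri hS hT
    | zero => exact Qz_zero hS
    | add z z' _ _ h1 h2 => exact Qz_add hS h1 h2
    | neg z _ h1 => exact Qz_neg hS h1
  obtain ⟨φ, hφ⟩ := hS.exact ((S.V × S.V →₀ ℤ) ⧸ B)
    (fun x y => QuotientAddGroup.mk' B (Finsupp.single (x, y) 1))
    (fun x y => by
      rw [eq_neg_iff_add_eq_zero, ← map_add]
      refine (QuotientAddGroup.eq_zero_iff _).2 ?_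
      rw [hB]
      exact AddSubgroup.subset_closure (Or.inl ⟨y, x, rfl⟩))
    (fun x y t hT => by
      rw [← map_add, ← map_add]
      refine (QuotientAddGroup.eq_zero_iff _).2 ?_
      rw [hB]
      exact AddSubgroup.subset_closure (Or.inr ⟨x, y, t, hT, rfl⟩))
  have t1 : QuotientAddGroup.mk' B (wsum (fun x y => Finsupp.single (x, y) (1 : ℤ)) w) =
      φ t - φ s := by
    rw [wsum_map]
    exact wsum_tele (fun p q hpq => hφ p q (hpq.chain h)) hs ht
  have t2 : QuotientAddGroup.mk' B (wsum (fun x y => Finsupp.single (x, y) (1 : ℤ)) w') =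
      φ t - φ s := by
    rw [wsum_map]
    exact wsum_tele (fun p q hpq => hφ p q (hpq.chain h')) hs' ht'
  have hmem : wsum (fun x y => Finsupp.single (x, y) (1 : ℤ)) w -
      wsum (fun x y => Finsupp.single (x, y) (1 : ℤ)) w' ∈ B := by
    refine (QuotientAddGroup.eq_zero_iff _).1 ?_
    have t3 : QuotientAddGroup.mk' B (wsum (fun x y => Finsupp.single (x, y) (1 : ℤ)) w -
      wsum (fun x y => Finsupp.single (x, y) (1 : ℤ)) w') = 0 := by
      rw [map_sub, t1, t2, sub_self]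
    exact t3
  obtain ⟨F, h1, h2, h3⟩ := hQ _ hmem
  refine ⟨F, h1, fun x y hxy => ?_, ?_⟩
  · rw [h2 x y hxy, Finsupp.sub_apply, Finsupp.sub_apply, cnt_wsum, cnt_wsum, cnt_wsum, cnt_wsum]
    unfold net
    ring
  · intro A _ u hu Γ hΓ hc
    rw [← h3 A u hu Γ hΓ hc, map_sub, ev_wsum, ev_wsum]

end Srf

end URW
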