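import Pool.Agent.URW.Srf.Ntw

/-!
# URW Srf: the noncrossing theorem for chordless walks of one surface

Problem MP_fc0f29_gt; architect helper65.

PROOF of `core`. `exists_chn` gives `F` for `(P, π)` and `F'` for `(P', π')`. By `chn_null`: `F h₀' y = 0`,
`F h₁' y = 0`, `F' h₀ y = 0`, `F' h₁ y = 0` for the neighbours `y`. `h₀'` and `h₁'` are not adjacent: otherwise
`Nx P' h₀' h₁'` or `Nx P' h₁' h₀'` (`cP'`), the second contradicts `not_nx_head`, the first gives `P' = [h₀', h₁']`
(`two_of_nx`), contradicting `Nx P' a' x`, `Nx P' x b'`. So `pair` of `F` with `Γ = {h₀', h₁'}`,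
`u = pu P'` (`pu_symm`, `pu_closed`) gives `wsum (pu P') P = wsum (pu P') π` (all terms are `0`).
`wsum (pu P') π = 0` by `wsum_pu_zero` for `F'` (`h₀ ∉ P'` by `N₀`). But
`wsum (pu P') P = pu P' a x + pu P' x b` (`wsum_two`; if `p, q` are consecutive in `P` and different from `x` then
`p, q ∉ P'` by `hx`, `pu_out`). `a, b ∉ P'` (`a ∈ P`, `a ≠ x`), so this is `[Btw x b' a' a] + [Btw x b' a' b]`
(`pu_io`, `lft_iff`, `pu_symm`), which is `1` by `hl`. Contradiction.
-/

set_option autoImplicit false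

namespace URW

namespace Srf

variable {S : Srf}

theorem core (hS : S.Good) {P P' π π' : List S.V} {x a b a' b' h₀ h₁ h₀' h₁' : S.V}
    (wP : S.Wlk P) (wP' : S.Wlk P') (nP : P.Nodup) (nP' : P'.Nodup) (cP' : S.Chordless P')
    (ha : Nx P a x) (hb : Nx P x b) (ha' : Nx P' a' x) (hb' : Nx P' x b')
    (hx : ∀ v ∈ P, v ∈ P' → v = x)
    (hl : (S.Btw x b' a' a ∧ ¬ S.Btw x b' a' b) ∨ (S.Btw x b' a' b ∧ ¬ S.Btw x b' a' a))
    (e₀ : P.head? = some h₀) (e₁ : P.getLast? = some h₁)
    (e₀' : P'.head? = some h₀') (e₁' : P'.getLast? = some h₁')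
    (wπ : S.Wlk π) (wπ' : S.Wlk π')
    (f₀ : π.head? = some h₀) (f₁ : π.getLast? = some h₁)
    (f₀' : π'.head? = some h₀') (f₁' : π'.getLast? = some h₁')
    (hd : ∀ p ∈ π, p ∉ π')
    (N₀' : S.NullAt h₀' P π) (N₁' : S.NullAt h₁' P π)
    (N₀ : S.NullAt h₀ P' π') (N₁ : S.NullAt h₁ P' π') : False := by
  classical
  obtain ⟨F, hF⟩ := exists_chn hS wP wπ e₀ e₁ f₀ f₁
  obtain ⟨F', hF'⟩ := exists_chn hS wP' wπ' e₀' e₁' f₀' f₁'
  have xP' : x ∈ P' := ha'.right_mem
  have m₀ : h₀' ∈ P' := List.mem_of_mem_head? (by rw [e₀']; rfl)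
  have m₁ : h₁' ∈ P' := List.mem_of_mem_getLast? (by rw [e₁']; rfl)
  have n01 : ¬ S.Adj h₀' h₁' := by
    intro hadj
    rcases cP' h₀' m₀ h₁' m₁ hadj with h | h
    · have h2 := two_of_nx nP' e₀' e₁' h
      rw [h2] at ha' hb' nP'
      have q1 : x = h₁' := by
        rcases ha' with h3 | h3
        · exact h3.2
        · exact absurd h3 (by simp [Nx])
      have q2 : x = h₀' := by
        rcases hb' with h3 | h3
        · exact h3.1
        · exact absurd h3 (by simp [Nx])
      have : h₀' ≠ h₁' := by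
        have := List.nodup_cons.1 nP'
        simpa using this.1
      exact this (q2 ▸ q1)
    · exact not_nx_head nP' e₀' h₁' h
  have n10 : ¬ S.Adj h₁' h₀' := fun h => n01 (hS.adj_symm h)
  have hpair := hF.pair (ZMod 2) (S.pu P') (fun p q => pu_symm P' p q) {h₀', h₁'} (by
      intro g hg g' hg'
      rw [Finset.mem_insert, Finset.mem_singleton] at hg hg'
      rcases hg with rfl | rfl <;> rcases hg' with rfl | rfl
      · exact fun h => hS.adj_ne h rfl
      · exact n01
      · exact n10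
      · exact fun h => hS.adj_ne h rfl) (by
      intro p q r hT hp hq hr
      rw [Finset.mem_insert, Finset.mem_singleton, not_or] at hp hq hr
      exact pu_closed hS nP' wP' cP' e₀' e₁' hT hp.1 hq.1 hr.1 hp.2 hq.2 hr.2)
  have hz : ∀ g ∈ ({h₀', h₁'} : Finset S.V), ∀ y, S.Adj g y → F g y = 0 := by
    intro g hg y hy
    rw [Finset.mem_insert, Finset.mem_singleton] at hg
    rcases hg with rfl | rfl
    · exact chn_null hS hF N₀' hy
    · exact chn_null hS hF N₁' hy
  replace hpair := hpair.trans (by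
    apply Finset.sum_eq_zero
    intro g hg
    apply finsum_eq_zero_of_forall_eq_zero
    intro p
    rw [finsum_eq_if]
    split_ifs with hT
    · rw [hz g hg p.1 ⟨_, hT⟩, zero_smul]
    · rfl)
  have hπ0 : wsum (S.pu P') π = 0 :=
    wsum_pu_zero hS hF' wP' nP' cP' e₀' e₁' (List.mem_of_mem_head? (by rw [f₀']; rfl))
      (List.mem_of_mem_getLast? (by rw [f₁']; rfl)) wπ f₀ f₁ hd N₀.1 N₁.1
      (fun y hy => chn_null hS hF' N₀ hy) (fun y hy => chn_null hS hF' N₁ hy)
  have aP' : a ∉ P' := fun h => ha.ne nP (hx a ha.left_mem h)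
  have bP' : b ∉ P' := fun h => hb.ne nP (hx b hb.right_mem h).symm
  have h2 : wsum (S.pu P') P = S.pu P' a x + S.pu P' x b := by
    apply wsum_two nP ha hb
    intro p q hpq hp hq
    exact pu_out (fun h => hp (hx p hpq.left_mem h)) (fun h => hq (hx q hpq.right_mem h))
  rw [h2, hπ0, sub_zero, pu_symm P' x a, pu_io xP' aP', pu_io xP' bP', lft_iff nP' ha' hb',
    lft_iff nP' ha' hb'] at hpair
  rcases hl with ⟨h3, h4⟩ | ⟨h3, h4⟩
  · rw [if_pos h3, if_neg h4] at hpair
    exact absurd hpair (by decide)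
  · rw [if_pos h3, if_neg h4] at hpair
    exact absurd hpair (by decide)

end Srf

end URW
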