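import Pool.Agent.URW.Srf.Defs

/-!
# URW Srf: further definitions (lists, push-off cochain, chains); no sorry in this file

Problem MP_fc0f29_gt; architect helper65.

* `Nx l p q`: `q` follows `p` in the list `l`; `cnt l p q`: the number of times; `net`: the net number.
* `Lft l p y`: `y` is strictly on the left of the walk `l` at its interior vertex `p` (that is strictly
  between the next vertex `b` and the previous vertex `a` in the counterclockwise rotation at `p`).
* `pu l`: the left push-off cochain mod 2: `pu l p q = 1` if one of `p, q` is an interior vertex of `l` and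
  the other one is outside of `l` and on the left of it.
* `Chn w w' F`: `F x y` is the coefficient of the triangle on the left of the edge `x y` in a 2-chain with
  boundary `w - w'`; `pair` is the pairing with cochains which are closed away from the finite set `Γ`.
-/

set_option autoImplicit false

namespace URW

namespace Srf

/-- `q` follows `p` in the list. -/
def Nx {X : Type} : List X → X → X → Prop
  | a :: b :: l, p, q => (p = a ∧ q = b) ∨ Nx (b :: l) p q
  | _, _, _ => False

open Classical in
/-- The number of times that `q` follows `p`. -/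
noncomputable def cnt {X : Type} (l : List X) (p q : X) : ℤ :=
  wsum (fun x y => if x = p ∧ y = q then (1 : ℤ) else 0) l

/-- The net number of passages from `p` to `q`. -/
noncomputable def net {X : Type} (l : List X) (p q : X) : ℤ := cnt l p q - cnt l q p

variable (S : Srf)

/-- No triangle has all its vertices in `l`. -/
def TriFree (l : List S.V) : Prop := ∀ u v w, S.T u v w → u ∈ l → v ∈ l → w ∈ l → False

/-- Adjacent vertices of `l` are consecutive. -/
def Chordless (l : List S.V) : Prop := ∀ p ∈ l, ∀ q ∈ l, S.Adj p q → Nx l p q ∨ Nx l q p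

/-- `y` is on the left of the walk `l` at its interior vertex `p`. -/
def Lft (l : List S.V) (p y : S.V) : Prop := ∃ a b, Nx l a p ∧ Nx l p b ∧ S.Btw p b a y

open Classical in
/-- The left push-off cochain mod 2. -/
noncomputable def pu (l : List S.V) (p q : S.V) : ZMod 2 :=
  (if q ∉ l ∧ S.Lft l p q then 1 else 0) + if p ∉ l ∧ S.Lft l q p then 1 else 0

/-- A 2-chain with boundary `w - w'`. -/
structure Chn (w w' : List S.V) (F : S.V → S.V → ℤ) : Prop where
  rot : ∀ x y z, S.T x y z → F x y = F y z
  bd : ∀ x y, S.Adj x y → F x y - F y x = net w x y - net w' x y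
  pair : ∀ (A : Type) [AddCommGroup A] (u : S.V → S.V → A), (∀ x y, u y x = -u x y) →
    ∀ Γ : Finset S.V, (∀ g ∈ Γ, ∀ g' ∈ Γ, ¬ S.Adj g g') →
    (∀ x y z, S.T x y z → x ∉ Γ → y ∉ Γ → z ∉ Γ → u x y + u y z + u z x = 0) →
    wsum u w - wsum u w' = ∑ g ∈ Γ, ∑ᶠ p : S.V × S.V, ∑ᶠ _ : S.T g p.1 p.2,
      F g p.1 • (u g p.1 + u p.1 p.2 + u p.2 g)

end Srf

end URW
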