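import Pool.Agent.URW.Srf.Defs2

/-!
# URW Srf: lists

Problem MP_fc0f29_gt; architect helper65. `Nx l p q` and `wsum b l` are defined by the same recursion
(`a :: b :: l` from `b :: l`), so nearly everything is an induction over `l`
(cases `[]`, `[a]`, `a :: b :: l`); other facts follow from `nx_iff`.

PROOFS. `nx_iff`: induction. `left_mem`, `right_mem`: `nx_iff`. `right_unique`: for
`A ++ p :: q :: B = A' ++ p :: q' :: B'` and `Nodup` the positions of `p` agree
(`List.append_cons_inj_of_notMem` or induction over `l` with `left_mem`: in `a :: b :: l` either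
`p = a` in both, then `q = b = q'`, or `a = p ∈ b :: l` contradicts `Nodup`). `left_unique`: the same
(`b = q` and `Nx (b :: l) p' q` with `q = b` at the head: `not_nx_head`). `ne'`: if `a = b` then
`Nx l a x` and `Nx l x a`; induction or: `l = A ++ a :: x :: B`, and `Nx l x b` gives (uniqueness of the
position of `x`) `b ∈ B`, so `b ≠ a` by `Nodup`. `wsum_map`: `map_add`. `wsum_tele`: telescoping sum.
`cnt_zero`: `wsum_congr` with the zero cochain (`wsum_zero`). `cnt_one`: induction, the rest of the list
does not contain `p` (then `cnt_zero`). `wsum_two`: induction over `l`, `l = c :: d :: l'`: if `x = d`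
(then `a = c` by `left_unique`) the next term is `f x b` (`l' = b :: l''`) and the remaining terms are
`0` (`wsum_congr`, as `x` does not occur any more); `x = c` is impossible (`not_nx_head`); otherwise
`f c d = 0` and induction. `two_of_nx`: by `nx_iff` `l = A ++ s :: t :: B`; `A = []` since the head is
`s` and `Nodup`, `B = []` since the last element is `t`.
-/

set_option autoImplicit false

namespace URW

namespace Srf

variable {X : Type} {l : List X} {p q p' q' a b x : X}

private theorem nx_cc {l : List X} : Nx (a :: b :: l) p q ↔ (p = a ∧ q = b) ∨ Nx (b :: l) p q :=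
  Iff.rfl

private theorem nx_nil : ¬ Nx ([] : List X) p q := fun h => h

private theorem nx_one : ¬ Nx [a] p q := fun h => h

theorem nx_iff : Nx l p q ↔ ∃ A B, l = A ++ p :: q :: B := by
  induction l with
  | nil =>
    constructor
    · intro h
      exact absurd h nx_nil
    · rintro ⟨A, B, h⟩
      have h1 := congrArg List.length h
      simp at h1
  | cons c l ih =>
    cases l with
    | nil =>
      constructor
      · intro h
        exact absurd h nx_one
      · rintro ⟨A, B, h⟩
        have h1 := congrArg List.length h
        simp at h1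
        omega
    | cons d l =>
      rw [nx_cc, ih]
      constructor
      · rintro (⟨rfl, rfl⟩ | ⟨A, B, h⟩)
        · exact ⟨[], l, rfl⟩
        · exact ⟨c :: A, B, by rw [h]; rfl⟩
      · rintro ⟨A, B, h⟩
        cases A with
        | nil =>
          left
          simp only [List.nil_append, List.cons.injEq] at h
          exact ⟨h.1.symm, h.2.1.symm⟩
        | cons e A =>
          right
          simp only [List.cons_append, List.cons.injEq] at h
          exact ⟨A, B, h.2⟩

theorem Nx.left_mem (h : Nx l p q) : p ∈ l := by
  obtain ⟨A, B, rfl⟩ := nx_iff.1 h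
  simp

theorem Nx.right_mem (h : Nx l p q) : q ∈ l := by
  obtain ⟨A, B, rfl⟩ := nx_iff.1 h
  simp

theorem not_nx_head (hl : l.Nodup) (h : l.head? = some x) (a : X) : ¬ Nx l a x := by
  intro hn
  obtain ⟨A, B, rfl⟩ := nx_iff.1 hn
  cases A with
  | nil =>
    simp only [List.nil_append, List.head?_cons, Option.some.injEq] at h
    subst h
    simp at hl
  | cons c A =>
    simp only [List.cons_append, List.head?_cons, Option.some.injEq] at h
    subst h
    simp at hl

theorem not_nx_last (hl : l.Nodup) (h : l.getLast? = some x) (b : X) : ¬ Nx l x b := by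
  intro hn
  obtain ⟨A, B, rfl⟩ := nx_iff.1 hn
  have e : A ++ x :: b :: B = (A ++ [x]) ++ (b :: B) := by simp
  rw [e, List.getLast?_append_of_ne_nil _ (List.cons_ne_nil b B)] at h
  have h1 := List.mem_of_getLast? h
  rw [List.nodup_append] at hl
  have h2 := (List.nodup_cons.1 hl.2.1).1
  exact h2 h1

theorem Nx.right_unique (hl : l.Nodup) (h : Nx l p q) (h' : Nx l p q') : q = q' := by
  induction l with
  | nil => exact absurd h nx_nil
  | cons c l ih =>
    cases l with
    | nil => exact absurd h nx_one
    | cons d l =>
      have hn := List.nodup_cons.1 hl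
      rcases nx_cc.1 h with ⟨rfl, rfl⟩ | h1
      · rcases nx_cc.1 h' with ⟨-, rfl⟩ | h2
        · rfl
        · exact absurd h2.left_mem hn.1
      · rcases nx_cc.1 h' with ⟨rfl, rfl⟩ | h2
        · exact absurd h1.left_mem hn.1
        · exact ih hn.2 h1 h2

theorem Nx.left_unique (hl : l.Nodup) (h : Nx l p q) (h' : Nx l p' q) : p = p' := by
  induction l with
  | nil => exact absurd h nx_nil
  | cons c l ih =>
    cases l with
    | nil => exact absurd h nx_one
    | cons d l =>
      have hn := List.nodup_cons.1 hl
      rcases nx_cc.1 h with ⟨rfl, rfl⟩ | h1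
      · rcases nx_cc.1 h' with ⟨rfl, -⟩ | h2
        · rfl
        · exact absurd h2 (not_nx_head hn.2 rfl _)
      · rcases nx_cc.1 h' with ⟨rfl, rfl⟩ | h2
        · exact absurd h1 (not_nx_head hn.2 rfl _)
        · exact ih hn.2 h1 h2

theorem Nx.ne (hl : l.Nodup) (h : Nx l p q) : p ≠ q := by
  obtain ⟨A, B, rfl⟩ := nx_iff.1 h
  rw [List.nodup_append] at hl
  have h2 := (List.nodup_cons.1 hl.2.1).1
  rintro rfl
  exact h2 List.mem_cons_self

/-- the two neighbours of an interior vertex are different -/
theorem Nx.ne' (hl : l.Nodup) (h : Nx l a x) (h' : Nx l x b) : a ≠ b := by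
  induction l with
  | nil => exact absurd h nx_nil
  | cons c l ih =>
    cases l with
    | nil => exact absurd h nx_one
    | cons d l =>
      have hn := List.nodup_cons.1 hl
      rcases nx_cc.1 h with ⟨rfl, rfl⟩ | h1
      · rcases nx_cc.1 h' with ⟨rfl, -⟩ | h2
        · exact absurd List.mem_cons_self hn.1
        · rintro rfl
          exact hn.1 h2.right_mem
      · rcases nx_cc.1 h' with ⟨rfl, rfl⟩ | h2
        · exact absurd h1.right_mem hn.1
        · exact ih hn.2 h1 h2

theorem Nx.asymm (hl : l.Nodup) (h : Nx l p q) : ¬ Nx l q p := by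
  intro h'
  exact Nx.ne' hl h h' rfl

theorem Nx.chain {R : X → X → Prop} (hl : l.IsChain R) (h : Nx l p q) : R p q := by
  induction l with
  | nil => exact absurd h nx_nil
  | cons c l ih =>
    cases l with
    | nil => exact absurd h nx_one
    | cons d l =>
      rw [List.isChain_cons_cons] at hl
      rcases nx_cc.1 h with ⟨rfl, rfl⟩ | h
      · exact hl.1
      · exact ih hl.2 h

theorem exists_prev (hx : x ∈ l) (h : l.head? ≠ some x) : ∃ a, Nx l a x := by
  induction l with
  | nil => exact absurd hx List.not_mem_nil
  | cons c l ih =>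
    have hc : x ≠ c := by
      rintro rfl
      exact h rfl
    have hx' : x ∈ l := (List.mem_cons.1 hx).resolve_left hc
    cases l with
    | nil => exact absurd hx' List.not_mem_nil
    | cons d l =>
      by_cases hd : x = d
      · exact ⟨c, Or.inl ⟨rfl, hd⟩⟩
      · obtain ⟨a, ha⟩ := ih hx' (by
          intro h1
          simp only [List.head?_cons, Option.some.injEq] at h1
          exact hd h1.symm)
        exact ⟨a, Or.inr ha⟩

theorem exists_next (hx : x ∈ l) (h : l.getLast? ≠ some x) : ∃ b, Nx l x b := by
  induction l with
  | nil => exact absurd hx List.not_mem_nil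
  | cons c l ih =>
    cases l with
    | nil =>
      have hc : x = c := by simpa using hx
      subst hc
      exact absurd rfl h
    | cons d l =>
      by_cases hc : x = c
      · exact ⟨d, Or.inl ⟨hc, rfl⟩⟩
      · have hx' : x ∈ d :: l := (List.mem_cons.1 hx).resolve_left hc
        rw [List.getLast?_cons_cons] at h
        obtain ⟨b, hb⟩ := ih hx' h
        exact ⟨b, Or.inr hb⟩

theorem two_of_nx {s t : X} (hl : l.Nodup) (hs : l.head? = some s) (ht : l.getLast? = some t)
    (h : Nx l s t) : l = [s, t] := by
  obtain ⟨A, B, rfl⟩ := nx_iff.1 h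
  cases A with
  | nil =>
    cases B with
    | nil => rfl
    | cons c B =>
      have e : [] ++ s :: t :: c :: B = [s, t] ++ (c :: B) := rfl
      rw [e, List.getLast?_append_of_ne_nil _ (List.cons_ne_nil c B)] at ht
      have h1 := List.mem_of_getLast? ht
      have h2 := (List.nodup_cons.1 (List.nodup_cons.1 hl).2).1
      exact absurd h1 h2
  | cons c A =>
    simp only [List.cons_append, List.head?_cons, Option.some.injEq] at hs
    subst hs
    have h2 := (List.nodup_cons.1 hl).1
    exact absurd (by simp) h2

section sums

variable {A B : Type} [AddCommGroup A] [AddCommGroup B]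

private theorem ws_cc (f : X → X → A) (a b : X) (l : List X) :
    wsum f (a :: b :: l) = f a b + wsum f (b :: l) := rfl

theorem wsum_congr {f g : X → X → A} (h : ∀ p q, Nx l p q → f p q = g p q) :
    wsum f l = wsum g l := by
  induction l with
  | nil => rfl
  | cons c l ih =>
    cases l with
    | nil => rfl
    | cons d l =>
      rw [ws_cc, ws_cc, h c d (Or.inl ⟨rfl, rfl⟩), ih fun p q hpq => h p q (Or.inr hpq)]

theorem wsum_zero : wsum (fun _ _ : X => (0 : A)) l = 0 := by
  induction l with
  | nil => rfl
  | cons c l ih =>
    cases l with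
    | nil => rfl
    | cons d l => rw [ws_cc, ih, add_zero]

theorem wsum_map (φ : A →+ B) (f : X → X → A) (l : List X) :
    φ (wsum f l) = wsum (fun x y => φ (f x y)) l := by
  induction l with
  | nil => exact map_zero φ
  | cons c l ih =>
    cases l with
    | nil => exact map_zero φ
    | cons d l => rw [ws_cc, ws_cc, map_add, ih]

theorem wsum_tele {f : X → X → A} {φ : X → A} (h : ∀ p q, Nx l p q → f p q = φ q - φ p) {s t : X}
    (hs : l.head? = some s) (ht : l.getLast? = some t) : wsum f l = φ t - φ s := by
  induction l generalizing s with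
  | nil => simp at hs
  | cons c l ih =>
    simp only [List.head?_cons, Option.some.injEq] at hs
    subst hs
    cases l with
    | nil =>
      simp only [List.getLast?_singleton, Option.some.injEq] at ht
      subst ht
      rw [sub_self]
      rfl
    | cons d l =>
      rw [List.getLast?_cons_cons] at ht
      rw [ws_cc, h c d (Or.inl ⟨rfl, rfl⟩), ih (s := d) (fun p q hpq => h p q (Or.inr hpq)) rfl ht]
      abel

theorem cnt_zero (h : ¬ Nx l p q) : cnt l p q = 0 := by
  classical
  unfold cnt
  rw [wsum_congr (g := fun _ _ => (0 : ℤ)), wsum_zero]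
  intro p' q' h'
  rw [if_neg]
  rintro ⟨rfl, rfl⟩
  exact h h'

theorem cnt_one (hl : l.Nodup) (h : Nx l p q) : cnt l p q = 1 := by
  classical
  induction l with
  | nil => exact absurd h nx_nil
  | cons c l ih =>
    cases l with
    | nil => exact absurd h nx_one
    | cons d l =>
      have hn := List.nodup_cons.1 hl
      have e : cnt (c :: d :: l) p q =
          (if c = p ∧ d = q then (1 : ℤ) else 0) + cnt (d :: l) p q := by
        unfold cnt
        rw [ws_cc]
      rw [e]
      rcases nx_cc.1 h with ⟨rfl, rfl⟩ | h
      · rw [if_pos ⟨rfl, rfl⟩, cnt_zero, add_zero]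
        intro h1
        exact hn.1 h1.left_mem
      · rw [if_neg, ih hn.2 h, zero_add]
        rintro ⟨rfl, -⟩
        exact hn.1 h.left_mem

theorem wsum_two {f : X → X → A} (hl : l.Nodup) (ha : Nx l a x) (hb : Nx l x b)
    (h : ∀ p q, Nx l p q → p ≠ x → q ≠ x → f p q = 0) : wsum f l = f a x + f x b := by
  induction l with
  | nil => exact absurd ha nx_nil
  | cons c l ih =>
    cases l with
    | nil => exact absurd ha nx_one
    | cons d l =>
      have hn := List.nodup_cons.1 hl
      rcases nx_cc.1 ha with ⟨rfl, rfl⟩ | ha1
      · rcases nx_cc.1 hb with ⟨rfl, -⟩ | hb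
        · exact absurd List.mem_cons_self hn.1
        · cases l with
          | nil => exact absurd hb nx_one
          | cons e l =>
            have hn2 := List.nodup_cons.1 hn.2
            rcases nx_cc.1 hb with ⟨-, rfl⟩ | hb
            · rw [ws_cc, ws_cc, wsum_congr (g := fun _ _ => (0 : A)) (l := b :: l), wsum_zero,
                add_zero]
              intro p q hpq
              refine h p q (Or.inr (Or.inr hpq)) ?_ ?_
              · rintro rfl
                exact hn2.1 hpq.left_mem
              · rintro rfl
                exact hn2.1 hpq.right_mem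
            · exact absurd hb.left_mem hn2.1
      · rcases nx_cc.1 hb with ⟨rfl, -⟩ | hb1
        · exact absurd ha1.right_mem hn.1
        · rw [ws_cc, ih hn.2 ha1 hb1 fun p q hpq => h p q (Or.inr hpq)]
          rw [h c d (Or.inl ⟨rfl, rfl⟩), zero_add]
          · rintro rfl
            exact hn.1 ha1.right_mem
          · rintro rfl
            exact not_nx_head hn.2 rfl _ ha1

end sums

end Srf

end URW
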