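import Pool.Agent.URW.Srf.Lst
import Pool.Agent.URW.Srf.Rot

/-!
# URW Srf: the left push-off cochain is closed away from the ends

Problem MP_fc0f29_gt; architect helper65. `l` is a walk without repetitions and chordless.

PROOFS. `lft_mem`: `Nx.left_mem`. `lft_iff`: `left_unique`, `right_unique`. `pu_symm`: `add_comm`, and
`-x = x` in `ZMod 2` (`ZMod.neg_eq_self_mod_two`). `pu_out`: both conditions are false (`lft_mem`).
`pu_in`: both conditions are false. `pu_io`: the second condition is false as `p ∈ l`.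
`pu_closed`: let `T x y z`, none of the vertices is an end of `l`. By rotation (`pu_closed` is
symmetric under rotations of the triangle) reduce to these cases.
* no vertex in `l`: `pu_out` three times. * Three vertices in `l`: `pu_in` three times.
* exactly one, say `x ∈ l`, `y, z ∉ l`: `x` is interior, `Nx l a x`, `Nx l x b` (`exists_prev`, `exists_next`);
 `pu y z = 0`, `pu x y = [Btw x b a y]`, `pu z x = pu x z = [Btw x b a z]`; `y, z ∉ {a, b}`, so these are
 equivalent by `btw_step` and `btw_step'`; `1 + 1 = 0` in `ZMod 2`.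
* exactly two, say `x, y ∈ l`, `z ∉ l` (both interior): `pu x y = 0`, `pu y z = [Lft y z]`, `pu z x = pu x z = [Lft x z]`.
 Claim: `Lft x z ↔ Lft y z`. Chordless: `Nx l x y` or `Nx l y x`.
 `Nx l x y` (next of `x` is `y`, previous of `y` is `x`): `z` is the successor of `y` at `x` (`T x y z`), so
 `Btw x y a z` (`btw_succ`, `z ≠ a`) and `Lft x z`; `z` is the predecessor of `x` at `y` (`T y z x`), so `Btw y b' x z`
 with `Nx l y b'` (`btw_pred`, `z ≠ b'`) and `Lft y z`. Both are true.
 `Nx l y x` (previous of `x` is `y`, next of `y` is `x`): `z` is the successor of `y` at `x`, so `Btw x y b z` with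
 `Nx l x b`, so not `Btw x b y z` (`btw_excl`), so not `Lft x z`; `z` is the predecessor of `x` at `y`, so
 `Btw y a' x z` with `Nx l a' y`, so not `Btw y x a' z`, so not `Lft y z`. Both are false. (Here `a ≠ b` etc. by
 `Nx.ne'`.)
-/

set_option autoImplicit false

namespace URW

namespace Srf

variable {S : Srf} {l : List S.V} {p q a b x y z : S.V}

theorem lft_mem (h : S.Lft l p y) : p ∈ l := by
  obtain ⟨a, b, ha, _, _⟩ := h
  exact ha.right_mem

theorem lft_iff (hn : l.Nodup) (ha : Nx l a p) (hb : Nx l p b) : S.Lft l p y ↔ S.Btw p b a y := by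
  constructor
  · rintro ⟨a', b', ha', hb', h⟩
    have e1 := Nx.left_unique hn ha ha'
    have e2 := Nx.right_unique hn hb hb'
    subst e1 e2
    exact h
  · intro h
    exact ⟨a, b, ha, hb, h⟩

theorem pu_symm (l : List S.V) (p q : S.V) : S.pu l q p = -S.pu l p q := by
  rw [ZMod.neg_eq_self_mod_two]
  unfold pu
  rw [add_comm]

theorem pu_out (hp : p ∉ l) (hq : q ∉ l) : S.pu l p q = 0 := by
  unfold pu
  rw [if_neg (fun h => hp (lft_mem h.2)), if_neg (fun h => hq (lft_mem h.2)), add_zero]

theorem pu_in (hp : p ∈ l) (hq : q ∈ l) : S.pu l p q = 0 := by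
  unfold pu
  rw [if_neg (fun h => h.1 hq), if_neg (fun h => h.1 hp), add_zero]

open Classical in
theorem pu_io (hp : p ∈ l) (hq : q ∉ l) : S.pu l p q = if S.Lft l p q then 1 else 0 := by
  unfold pu
  rw [if_neg (fun h : p ∉ l ∧ S.Lft l q p => h.1 hp), add_zero]
  by_cases h : S.Lft l p q
  · rw [if_pos ⟨hq, h⟩, if_pos h]
  · rw [if_neg (fun h' => h h'.2), if_neg h]

private theorem two_ite (P Q : Prop) [Decidable P] [Decidable Q] (h : P ↔ Q) :
    (if P then (1 : ZMod 2) else 0) + (if Q then 1 else 0) = 0 := by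
  by_cases hP : P
  · rw [if_pos hP, if_pos (h.1 hP)]
    decide
  · rw [if_neg hP, if_neg (fun hQ => hP (h.2 hQ)), add_zero]

private theorem one_in (hn : l.Nodup) {s t : S.V}
    (hs : l.head? = some s) (ht : l.getLast? = some t) (h : S.T x y z) (hxs : x ≠ s)
    (hxt : x ≠ t) (hx : x ∈ l) (hy : y ∉ l) (hz : z ∉ l) (hS : S.Good) :
    S.pu l x y + S.pu l y z + S.pu l z x = 0 := by
  classical
  obtain ⟨a, ha⟩ := exists_prev hx (by rw [hs]; intro e; exact hxs (Option.some.inj e).symm)
  obtain ⟨b, hb⟩ := exists_next hx (by rw [ht]; intro e; exact hxt (Option.some.inj e).symm)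
  have hya : y ≠ a := fun e => hy (e ▸ ha.left_mem)
  have hyb : y ≠ b := fun e => hy (e ▸ hb.right_mem)
  have hza : z ≠ a := fun e => hz (e ▸ ha.left_mem)
  have hzb : z ≠ b := fun e => hz (e ▸ hb.right_mem)
  have key : S.Lft l x y ↔ S.Lft l x z := by
    rw [lft_iff hn ha hb, lft_iff hn ha hb]
    exact ⟨fun h' => btw_step h hzb hza h', fun h' => btw_step' hS h hyb h'⟩
  rw [pu_out hy hz, add_zero, pu_symm l x z, ZMod.neg_eq_self_mod_two, pu_io hx hy, pu_io hx hz]
  exact two_ite _ _ key

private theorem two_in (hS : S.Good) (hn : l.Nodup) (hw : S.Wlk l) (hc : S.Chordless l) {s t : S.V}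
    (hs : l.head? = some s) (ht : l.getLast? = some t) (h : S.T x y z) (hxs : x ≠ s) (hys : y ≠ s)
    (hxt : x ≠ t) (hyt : y ≠ t) (hx : x ∈ l) (hy : y ∈ l) (hz : z ∉ l) :
    S.pu l x y + S.pu l y z + S.pu l z x = 0 := by
  classical
  obtain ⟨a, ha⟩ := exists_prev hx (by rw [hs]; intro e; exact hxs (Option.some.inj e).symm)
  obtain ⟨b, hb⟩ := exists_next hx (by rw [ht]; intro e; exact hxt (Option.some.inj e).symm)
  obtain ⟨a', ha'⟩ := exists_prev hy (by rw [hs]; intro e; exact hys (Option.some.inj e).symm)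
  obtain ⟨b', hb'⟩ := exists_next hy (by rw [ht]; intro e; exact hyt (Option.some.inj e).symm)
  have hza : z ≠ a := fun e => hz (e ▸ ha.left_mem)
  have hzb : z ≠ b := fun e => hz (e ▸ hb.right_mem)
  have hza' : z ≠ a' := fun e => hz (e ▸ ha'.left_mem)
  have hzb' : z ≠ b' := fun e => hz (e ▸ hb'.right_mem)
  have hyzx := hS.rot _ _ _ h
  have key : S.Lft l y z ↔ S.Lft l x z := by
    rcases hc x hx y hy (hS.T_adj h).1 with hxy | hyx
    · have e1 : b = y := Nx.right_unique hn hb hxy
      have e2 : a' = x := Nx.left_unique hn ha' hxy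
      subst e1 e2
      have h1 : S.Lft l a' z := by
        rw [lft_iff hn ha hb]
        exact btw_succ hS (Nx.ne' hn ha hb).symm h hza
      have h2 : S.Lft l b z := by
        rw [lft_iff hn ha' hb']
        exact btw_pred hS (Nx.chain hw hb') (Nx.ne' hn ha' hb').symm hyzx hzb'
      exact ⟨fun _ => h1, fun _ => h2⟩
    · have e1 : a = y := Nx.left_unique hn ha hyx
      have e2 : b' = x := Nx.right_unique hn hb' hyx
      subst e1 e2
      have h1 : ¬ S.Lft l b' z := by
        rw [lft_iff hn ha hb]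
        exact btw_excl hS (btw_succ hS (Nx.ne' hn ha hb) h hzb)
      have h2 : ¬ S.Lft l a z := by
        rw [lft_iff hn ha' hb']
        exact btw_excl hS (btw_pred hS (hS.adj_symm (Nx.chain hw ha')) (Nx.ne' hn ha' hb')
          hyzx hza')
      exact ⟨fun h => absurd h h2, fun h => absurd h h1⟩
  rw [pu_in hx hy, zero_add, pu_symm l x z, ZMod.neg_eq_self_mod_two, pu_io hx hz, pu_io hy hz]
  exact two_ite _ _ key

theorem pu_closed (hS : S.Good) (hn : l.Nodup) (hw : S.Wlk l) (hc : S.Chordless l) {s t : S.V}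
    (hs : l.head? = some s) (ht : l.getLast? = some t) (h : S.T x y z) (hxs : x ≠ s) (hys : y ≠ s)
    (hzs : z ≠ s) (hxt : x ≠ t) (hyt : y ≠ t) (hzt : z ≠ t) :
    S.pu l x y + S.pu l y z + S.pu l z x = 0 := by
  have h1 := hS.rot _ _ _ h
  have h2 := hS.rot _ _ _ h1
  by_cases hx : x ∈ l
  · by_cases hy : y ∈ l
    · by_cases hz : z ∈ l
      · rw [pu_in hx hy, pu_in hy hz, pu_in hz hx, add_zero, add_zero]
      · exact two_in hS hn hw hc hs ht h hxs hys hxt hyt hx hy hz
    · by_cases hz : z ∈ l
      · have := two_in hS hn hw hc hs ht h2 hzs hxs hzt hxt hz hx hy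
        rw [← this]
        ring
      · exact one_in hn hs ht h hxs hxt hx hy hz hS
  · by_cases hy : y ∈ l
    · by_cases hz : z ∈ l
      · have := two_in hS hn hw hc hs ht h1 hys hzs hyt hzt hy hz hx
        rw [← this]
        ring
      · have := one_in hn hs ht h1 hys hyt hy hz hx hS
        rw [← this]
        ring
    · by_cases hz : z ∈ l
      · have := one_in hn hs ht h2 hzs hzt hz hx hy hS
        rw [← this]
        ring
      · rw [pu_out hx hy, pu_out hy hz, pu_out hz hx, add_zero, add_zero]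

end Srf

end URW
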