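import Pool.Agent.URW.Srf.Wnd
import Pool.Agent.URW.Srf.Psh

/-!
# URW Srf: the second walk does not cross the push-off

Problem MP_fc0f29_gt; architect helper65. `F` is a 2-chain with boundary `P' - π'`; `π` is a walk
disjoint from `π'`.

PROOF of `wsum_pu_zero`. The ends of `P'` are in `π'`. Define `N : V → ZMod 2`: if there is `a` with
`Nx P' a p` then `N p = F p a`, otherwise, if there is `y` with `Adj p y`, `N p = F p y`, otherwise `N p = 0`
(choices; for `p ∉ P'`, `p ∉ π'` the value `F p y` does not depend on `y`: `chn_const`, where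
`p ∉ P'` and `p ∉ π'`; and `Nx P' a p` implies `p ∈ P'`). Claim (`pu_pot`): `pu P' p q = N q - N p` for adjacent `p, q ∉ π'`. In
`ZMod 2` signs do not matter.
* `p, q ∉ P'`: `pu = 0` (`pu_out`), `N p = F p q = F q p = N q` (`chn_swap`, `net_zero'`).
* `p ∈ P'`, `q ∉ P'`: `p` is not an end of `P'` (ends are in `π'`), so `Nx P' a p`, `Nx P' p b`; `N p = F p a`;
 `N q = F q p = F p q` (`chn_swap`; `q` is in none of the walks). By `btw_total` `Btw p b a q` or `Btw p a b q`. In
 the first case `F p q = F p b = F p a + 1` (`sec_left`, `sec_jump`) and `pu = 1` (`pu_io`, `lft_iff`); in the second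
 case `F p q = F p a` (`sec_right`) and `pu = 0` (`btw_excl`).
* `p ∉ P'`, `q ∈ P'`: the same case with `p, q` exchanged (`pu_symm`).
* `p, q ∈ P'`: `pu = 0` (`pu_in`); by `hc` `Nx P' p q` or `Nx P' q p`; in the first case `N q = F q p` (the previous vertex
 of `q` is `p`) and `N p = F p a = F q p` (`sec_right'` with `b = q`); the second case is symmetric.
Then `wsum (pu P') π = N t - N s` (`wsum_tele`, `Nx.chain`), and `N s = 0`: `s ∉ P'`, so `N s = F s y = 0` or `N s = 0` by
definition; the same for `t`.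
-/

set_option autoImplicit false

namespace URW

namespace Srf

variable {S : Srf} {P' π' π : List S.V} {F : S.V → S.V → ℤ}

/-- the potential: the value of the chain on the right side of the walk -/
private noncomputable def pot (S : Srf) (P' : List S.V) (F : S.V → S.V → ℤ) (p : S.V) : ZMod 2 :=
  open Classical in
  if h : ∃ a, Nx P' a p then (F p h.choose : ZMod 2)
  else if h : ∃ y, S.Adj p y then (F p h.choose : ZMod 2) else 0

private theorem pot_nx (hn : P'.Nodup) {a p : S.V} (h : Nx P' a p) :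
    pot S P' F p = (F p a : ZMod 2) := by
  have hex : ∃ a, Nx P' a p := ⟨a, h⟩
  have he : hex.choose = a := Nx.left_unique hn hex.choose_spec h
  unfold pot
  rw [dif_pos hex, he]

private theorem pot_out (hS : S.Good) (hF : S.Chn P' π' F) {p y : S.V} (hp : p ∉ P')
    (hp' : p ∉ π') (h : S.Adj p y) : pot S P' F p = (F p y : ZMod 2) := by
  have h1 : ¬ ∃ a, Nx P' a p := fun ⟨a, ha⟩ => hp ha.right_mem
  have hex : ∃ y, S.Adj p y := ⟨y, h⟩
  unfold pot
  rw [dif_neg h1, dif_pos hex, chn_const hS hF hp hp' hex.choose_spec h]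

private theorem pot_zero {p : S.V} (hp : p ∉ P') (h : ∀ y, S.Adj p y → F p y = 0) :
    pot S P' F p = 0 := by
  have h1 : ¬ ∃ a, Nx P' a p := fun ⟨a, ha⟩ => hp ha.right_mem
  unfold pot
  rw [dif_neg h1]
  split_ifs with h2
  · rw [h _ h2.choose_spec, Int.cast_zero]
  · rfl

private theorem pot_io (hS : S.Good) (hF : S.Chn P' π' F) (hw : S.Wlk P') (hn : P'.Nodup)
    {s' t' : S.V} (hs' : P'.head? = some s') (ht' : P'.getLast? = some t')
    (hs'' : s' ∈ π') (ht'' : t' ∈ π') {p q : S.V} (h : S.Adj p q) (hp' : p ∉ π') (hq' : q ∉ π')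
    (hp : p ∈ P') (hq : q ∉ P') : S.pu P' p q = pot S P' F q - pot S P' F p := by
  obtain ⟨a, ha⟩ : ∃ a, Nx P' a p := by
    refine exists_prev hp ?_
    rw [hs']
    rintro ⟨⟩
    exact hp' hs''
  obtain ⟨b, hb⟩ : ∃ b, Nx P' p b := by
    refine exists_next hp ?_
    rw [ht']
    rintro ⟨⟩
    exact hp' ht''
  have hqa : q ≠ a := by
    rintro rfl
    exact hq ha.left_mem
  have hqb : q ≠ b := by
    rintro rfl
    exact hq hb.right_mem
  have hba : b ≠ a := (Nx.ne' hn ha hb).symm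
  have hadj : S.Adj p b := Nx.chain hw hb
  rw [pot_nx hn ha, pot_out hS hF hq hq' (hS.adj_symm h),
    chn_swap hF (hS.adj_symm h) (net_zero' hq) (net_zero' hq'), pu_io hp hq]
  rcases btw_total hS hadj hba h hqb hqa with h1 | h1
  · rw [if_pos ((lft_iff hn ha hb).2 h1), sec_left hS hF hn hp' ha hb h1,
      sec_jump hS hF hw hn hp' ha hb]
    push_cast
    ring
  · have h2 : ¬ S.Lft P' p q := fun h3 => btw_excl hS h1 ((lft_iff hn ha hb).1 h3)
    rw [if_neg h2, sec_right hS hF hn hp' ha hb h1, sub_self]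

private theorem pot_ii (hS : S.Good) (hF : S.Chn P' π' F) (hw : S.Wlk P') (hn : P'.Nodup)
    {s' : S.V} (hs' : P'.head? = some s') (hs'' : s' ∈ π') {p q : S.V} (hp' : p ∉ π')
    (hp : p ∈ P') (hpq : Nx P' p q) : pot S P' F q = pot S P' F p := by
  obtain ⟨a, ha⟩ : ∃ a, Nx P' a p := by
    refine exists_prev hp ?_
    rw [hs']
    rintro ⟨⟩
    exact hp' hs''
  rw [pot_nx hn ha, pot_nx hn hpq, sec_right' hS hF hw hn hp' ha hpq]

theorem pu_pot (hS : S.Good) (hF : S.Chn P' π' F) (hw : S.Wlk P') (hn : P'.Nodup)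
    (hc : S.Chordless P') {s' t' : S.V} (hs' : P'.head? = some s') (ht' : P'.getLast? = some t')
    (hs'' : s' ∈ π') (ht'' : t' ∈ π') :
    ∃ N : S.V → ZMod 2, (∀ p q, S.Adj p q → p ∉ π' → q ∉ π' → S.pu P' p q = N q - N p) ∧
      ∀ p, p ∉ P' → p ∉ π' → (∀ y, S.Adj p y → F p y = 0) → N p = 0 := by
  refine ⟨pot S P' F, fun p q h hp' hq' => ?_, fun p hp _ h => pot_zero hp h⟩
  by_cases hp : p ∈ P'
  · by_cases hq : q ∈ P'
    · rw [pu_in hp hq]
      rcases hc p hp q hq h with h1 | h1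
      · rw [pot_ii hS hF hw hn hs' hs'' hp' hp h1, sub_self]
      · rw [pot_ii hS hF hw hn hs' hs'' hq' hq h1, sub_self]
    · exact pot_io hS hF hw hn hs' ht' hs'' ht'' h hp' hq' hp hq
  · by_cases hq : q ∈ P'
    · have h1 := pot_io hS hF hw hn hs' ht' hs'' ht'' (hS.adj_symm h) hq' hp' hq hp
      have h2 := pu_symm P' q p
      rw [h2, h1]
      ring
    · rw [pu_out hp hq, pot_out hS hF hp hp' h, pot_out hS hF hq hq' (hS.adj_symm h),
        chn_swap hF h (net_zero' hp) (net_zero' hp'), sub_self]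

theorem wsum_pu_zero (hS : S.Good) (hF : S.Chn P' π' F) (hw : S.Wlk P') (hn : P'.Nodup)
    (hc : S.Chordless P') {s' t' : S.V} (hs' : P'.head? = some s') (ht' : P'.getLast? = some t')
    (hs'' : s' ∈ π') (ht'' : t' ∈ π') (hπ : S.Wlk π) {s t : S.V} (hs : π.head? = some s)
    (ht : π.getLast? = some t) (hd : ∀ p ∈ π, p ∉ π') (hsP : s ∉ P') (htP : t ∉ P')
    (hFs : ∀ y, S.Adj s y → F s y = 0) (hFt : ∀ y, S.Adj t y → F t y = 0) :
    wsum (S.pu P') π = 0 := by
  obtain ⟨N, h1, h2⟩ := pu_pot hS hF hw hn hc hs' ht' hs'' ht''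
  have hsm : s ∈ π := List.mem_of_mem_head? hs
  have htm : t ∈ π := List.mem_of_getLast? ht
  have h3 : wsum (S.pu P') π = N t - N s :=
    wsum_tele (fun p q hpq => h1 p q (Nx.chain hπ hpq) (hd p hpq.left_mem)
      (hd q hpq.right_mem)) hs ht
  rw [h3, h2 s hsP (hd s hsm) hFs, h2 t htP (hd t htm) hFt, sub_self]

end Srf

end URW
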