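import Pool.Agent.URW.Srf.Rot

/-!
# URW Srf: the subdivision, part A

Problem MP_fc0f29_gt; architect helper65. The triangles of `S.sub`: for every `T x y z` the corner triangle
`(xx, xy, xz)` with its rotations `(xz, xx, xy)`, `(xy, xz, xx)`, and the centre `(xy, yz, zx)`
(`xy` is `s(x, y)`).

PROOFS. `sub_mk1`, ..., `sub_mk4`: by definition. `sub_T_diag`: the second and third form and the centre have
a first vertex `s(x, z)`, `s(x, y)`, `s(x, y)` with different elements (`T_ne`). `sub_rot`: the forms are permuted; for the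
centre use `T y z x` (`hS.rot`). `sub_ne`: `T_ne` and `Sym2.eq_iff`. `sub_opp`: `(xx, xy, xz)`: `opp` and rotation give
`T x w y`, then `(xy, xx, xw)` (a rotation of `(xx, xw, xy)`); `(xz, xx, xy)`: `T x z w` (from `opp` for `T z x y`), then
`(xx, xz, xw)`; `(xy, xz, xx)`: the centre `(zx, xy, yz)`; centre `(xy, yz, zx)`: the corner `(yy, yz, yx)` at `y`, rotated.
`sub_uniq`, `sub_nd`: case analysis (use `Sym2.eq_iff`): an edge from `s(x, x)` or to `s(x, x)` determines the vertex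
`x` and its other end `s(x, y)`, the third vertex is the next (previous) one in the rotation at `x` (`uniq`,
`pred_unique`); an edge between `s(u, v)` and `s(v, w)`: `(xy, xz)` in a corner with `T x y z` and `(xy, yz)`
in a centre with `T x y z`, that is `(vu, vw)` with `T v u w` or with `T u v w`, excluded by `nd`
(`T u v w → T v w u`, `T v u w`: `nd` for the edge `v u`: `T u v w` and `T v u w` are contradictory); the same form: the third
vertex is determined. `sub_locfin`: the neighbours of `s(x, y)` are of the form `s(u, v)` with `u, v` in the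
finite set of `x`, `y` and their neighbours (`Set.Finite.subset` of the image of the product under
`fun p => s(p.1, p.2)`).
It is useful to prove first: if `S.sub.T a b c` then (`a = s(x, x)`, `b = s(x, y)`, `c = s(x, z)`, `T x y z`) or ... as four
`rcases` cases with `subst`.
-/

set_option autoImplicit false

namespace URW

namespace Srf

variable {S : Srf} {x y z : S.V} {a b c c' : Sym2 S.V}

theorem sub_mk1 (h : S.T x y z) : S.sub.T s(x, x) s(x, y) s(x, z) :=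
  ⟨x, y, z, h, Or.inl ⟨rfl, rfl, rfl⟩⟩

theorem sub_mk2 (h : S.T x y z) : S.sub.T s(x, z) s(x, x) s(x, y) :=
  ⟨x, y, z, h, Or.inr (Or.inl ⟨rfl, rfl, rfl⟩)⟩

theorem sub_mk3 (h : S.T x y z) : S.sub.T s(x, y) s(x, z) s(x, x) :=
  ⟨x, y, z, h, Or.inr (Or.inr (Or.inl ⟨rfl, rfl, rfl⟩))⟩

theorem sub_mk4 (h : S.T x y z) : S.sub.T s(x, y) s(y, z) s(z, x) :=
  ⟨x, y, z, h, Or.inr (Or.inr (Or.inr ⟨rfl, rfl, rfl⟩))⟩

theorem sub_T_diag (hS : S.Good) : S.sub.T s(x, x) b c ↔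
    ∃ y z, S.T x y z ∧ b = s(x, y) ∧ c = s(x, z) := by
  constructor
  · rintro ⟨x', y', z', h, ⟨h1, h2, h3⟩ | ⟨h1, h2, h3⟩ | ⟨h1, h2, h3⟩ | ⟨h1, h2, h3⟩⟩
    · have hx : x = x' := by
        rcases Sym2.eq_iff.1 h1 with h4 | h4 <;> exact h4.1
      subst hx
      exact ⟨y', z', h, h2, h3⟩
    · have hne := hS.T_ne h
      rcases Sym2.eq_iff.1 h3 with h4 | h4
      · exact absurd (h4.2.symm.trans h4.1) hne.2.2
      · exact absurd (h4.1.symm.trans h4.2) hne.2.2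
    · have hne := hS.T_ne h
      rcases Sym2.eq_iff.1 h2 with h4 | h4
      · exact absurd (h4.1.symm.trans h4.2) hne.1
      · exact absurd (h4.2.symm.trans h4.1) hne.1
    · have hne := hS.T_ne h
      rcases Sym2.eq_iff.1 h1 with h4 | h4
      · exact absurd (h4.1.symm.trans h4.2) hne.1
      · exact absurd (h4.2.symm.trans h4.1) hne.1
  · rintro ⟨y, z, h, rfl, rfl⟩
    exact sub_mk1 h

theorem sub_rot (hS : S.Good) (h : S.sub.T a b c) : S.sub.T b c a := by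
  obtain ⟨x, y, z, h, ⟨rfl, rfl, rfl⟩ | ⟨rfl, rfl, rfl⟩ | ⟨rfl, rfl, rfl⟩ | ⟨rfl, rfl, rfl⟩⟩ := h
  · exact sub_mk3 h
  · exact sub_mk1 h
  · exact sub_mk2 h
  · exact sub_mk4 (hS.rot _ _ _ h)

theorem sub_ne (hS : S.Good) (h : S.sub.T a b c) : a ≠ b := by
  obtain ⟨x, y, z, h, ⟨rfl, rfl, rfl⟩ | ⟨rfl, rfl, rfl⟩ | ⟨rfl, rfl, rfl⟩ | ⟨rfl, rfl, rfl⟩⟩ := h
  all_goals
    obtain ⟨h1, h2, h3⟩ := hS.T_ne h
    intro h4
    rw [Sym2.eq_iff] at h4
    grind

theorem sub_uniq (hS : S.Good) (h : S.sub.T a b c) (h' : S.sub.T a b c') : c = c' := by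
  obtain ⟨x, y, z, h, hc⟩ := h
  obtain ⟨x', y', z', h', hc'⟩ := h'
  have hne := hS.T_ne h
  have hne' := hS.T_ne h'
  have hu : x = x' → y = y' → z = z' := by
    rintro rfl rfl
    exact hS.uniq _ _ _ _ h h'
  have hp : x = x' → z = z' → y = y' := by
    rintro rfl rfl
    exact hS.pred_unique h h'
  have hn : x = y' → y = x' → z = z' → False := by
    rintro rfl rfl rfl
    exact hS.nd _ _ _ h h'
  have hn2 : y = z' → z = y' → x = x' → False := by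
    rintro rfl rfl rfl
    exact hS.nd _ _ _ (hS.rot _ _ _ h) (hS.rot _ _ _ h')
  rcases hc with ⟨rfl, rfl, rfl⟩ | ⟨rfl, rfl, rfl⟩ | ⟨rfl, rfl, rfl⟩ | ⟨rfl, rfl, rfl⟩ <;>
  rcases hc' with ⟨h1, h2, rfl⟩ | ⟨h1, rfl, h2⟩ | ⟨rfl, h1, h2⟩ | ⟨h1, h2, rfl⟩ <;>
  rw [Sym2.eq_iff] at h1 h2 <;> rw [Sym2.eq_iff] <;> grind

theorem sub_opp (hS : S.Good) (h : S.sub.T a b c) : ∃ d, S.sub.T b a d := by
  obtain ⟨x, y, z, h, ⟨rfl, rfl, rfl⟩ | ⟨rfl, rfl, rfl⟩ | ⟨rfl, rfl, rfl⟩ | ⟨rfl, rfl, rfl⟩⟩ := h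
  · obtain ⟨w, hw⟩ := hS.opp _ _ _ h
    exact ⟨_, sub_mk2 (hS.rot _ _ _ hw)⟩
  · obtain ⟨w, hw⟩ := hS.opp _ _ _ (hS.rot _ _ _ (hS.rot _ _ _ h))
    exact ⟨_, sub_mk1 hw⟩
  · have h2 := sub_mk4 (hS.rot _ _ _ (hS.rot _ _ _ h))
    rw [Sym2.eq_swap (a := z)] at h2
    exact ⟨_, h2⟩
  · have h2 := sub_rot hS (sub_mk1 (hS.rot _ _ _ h))
    have h3 := sub_rot hS (sub_rot hS (sub_mk3 (hS.rot _ _ _ h)))
    have h4 := sub_mk3 (hS.rot _ _ _ h)
    rw [Sym2.eq_swap (a := y) (b := x)] at h4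
    exact ⟨_, h4⟩

theorem sub_nd (hS : S.Good) (h : S.sub.T a b c) : ¬ S.sub.T b a c := by
  intro h'
  obtain ⟨x, y, z, h, hc⟩ := h
  obtain ⟨x', y', z', h', hc'⟩ := h'
  have hne := hS.T_ne h
  have hne' := hS.T_ne h'
  have hn : x = y' → y = x' → z = z' → False := by
    rintro rfl rfl rfl
    exact hS.nd _ _ _ h h'
  have hn2 : y = z' → z = y' → x = x' → False := by
    rintro rfl rfl rfl
    exact hS.nd _ _ _ (hS.rot _ _ _ h) (hS.rot _ _ _ h')
  have hn3 : z = x' → x = z' → y = y' → False := by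
    rintro rfl rfl rfl
    exact hS.nd _ _ _ (hS.rot _ _ _ (hS.rot _ _ _ h)) (hS.rot _ _ _ (hS.rot _ _ _ h'))
  rcases hc with ⟨rfl, rfl, rfl⟩ | ⟨rfl, rfl, rfl⟩ | ⟨rfl, rfl, rfl⟩ | ⟨rfl, rfl, rfl⟩ <;>
  rcases hc' with ⟨h1, h2, h3⟩ | ⟨h1, h2, h3⟩ | ⟨h1, h2, h3⟩ | ⟨h1, h2, h3⟩ <;>
  rw [Sym2.eq_iff] at h1 h2 h3 <;> grind

theorem sub_locfin (hS : S.Good) (a : Sym2 S.V) : {b | S.sub.Adj a b}.Finite := by
  induction a using Sym2.ind with
  | _ u v =>
    have hf : ({w | w = u ∨ w = v ∨ S.Adj u w ∨ S.Adj v w} : Set S.V).Finite := by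
      have h1 := (Set.finite_singleton u).union ((Set.finite_singleton v).union
        ((hS.locfin u).union (hS.locfin v)))
      refine h1.subset ?_
      rintro w (h | h | h | h)
      · exact Or.inl h
      · exact Or.inr (Or.inl h)
      · exact Or.inr (Or.inr (Or.inl h))
      · exact Or.inr (Or.inr (Or.inr h))
    refine ((hf.prod hf).image fun p => s(p.1, p.2)).subset ?_
    rintro b ⟨c, x, y, z, h, hc⟩
    have had := hS.T_adj h
    rcases hc with ⟨h1, rfl, -⟩ | ⟨rfl, -, h1⟩ | ⟨-, h1, rfl⟩ | ⟨h1, rfl, -⟩ <;>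
    rw [Sym2.eq_iff] at h1
    · refine ⟨(x, y), ⟨?_, ?_⟩, rfl⟩ <;> simp only [Set.mem_ofPred_eq] <;> grind
    · refine ⟨(x, x), ⟨?_, ?_⟩, rfl⟩ <;> simp only [Set.mem_ofPred_eq] <;> grind
    · refine ⟨(x, z), ⟨?_, ?_⟩, rfl⟩ <;> simp only [Set.mem_ofPred_eq] <;> grind
    · refine ⟨(y, z), ⟨?_, ?_⟩, rfl⟩ <;> simp only [Set.mem_ofPred_eq] <;> grind

end Srf

end URW
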