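import Pool.Agent.URW.Srf.SubA

/-!
# URW Srf: the subdivision, part B (links, exactness)

Problem MP_fc0f29_gt; architect helper65.

PROOFS. `sub_adj_cases`: an edge of `S.sub` from `a` to `b` is of one of the forms: `a = xx, b = xy` or `a = xy, b = xx` or
`a = xy, b = xz`, with `x, y` adjacent, in the last form with `T x y z` or `T x z y` (from the four forms of the triangles;
centre `(xy, yz)` is `(yx, yz)` with `T y z x`, so of the form `(vu, vw)` with `T v w u`).
`sub_link` at `a = s(x, x)`: by `sub_T_diag` and induction over the chain in the link of `x`.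
At `a = s(x, y)` with `x, y` adjacent: let `T x y z` and `T y x w` (so `T x w y`). The following are steps of the
rotation at `a` (all by `sub_mk1..4` for `T x y z`, `T y z x`, `T y x w`, `T x w y` and rotation):
`yz → zx → xx → xw → wy → yy → yz`. Every neighbour of `a` is one of these six (a triangle `T_sub a b c` with
`a = s(x, y)` is one of: corner at `x` or `y`, centre, on one of the two sides; `uniq` identifies the third
vertex with `z` or `w`), so any two are joined by a chain.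
(If `a` has no neighbours there is nothing to prove; a vertex `a` with neighbours is `s(x, x)` or `s(x, y)` with
`x, y` adjacent.)
`sub_exact`: `a0 x y := α s(x,x) s(x,y) + α s(x,y) s(y,y)` is antisymmetric (`Sym2.eq_swap`) and closed: the sum
around `T x y z` is the sum of `α` around the three corner triangles and the centre (all `0`; write it out
and use `abel` or `linear_combination (exp := 1)`, in abelian groups: add the four relations). `hS.exact`
gives `φ`. Define `ψ e = φ x` for `e = s(x, x)` and `ψ e = φ x + α s(x, x) e` for `e = s(x, y)`, `x ≠ y`, where `x` is a chosen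
element of `e`; for adjacent `x, y` it does not matter which element is chosen:
`φ x + α xx xy = φ y + α yy xy` by `a0 x y = φ y - φ x` and antisymmetry. Check `α p q = ψ q - ψ p` for the
edges `(xx, xy)`, `(xy, xx)` (antisymmetry) and `(xy, xz)` in a corner at `x` (`α xy xz = α xx xz - α xx xy` as the
corner is closed) by `sub_adj_cases`.
`Good.sub`: all fields (SubA). `Good.it`: induction.
-/

set_option autoImplicit false

namespace URW

namespace Srf

variable {S : Srf}

theorem sub_adj_cases (hS : S.Good) {a b : Sym2 S.V} (h : S.sub.Adj a b) :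
    ∃ x y, S.Adj x y ∧ ((a = s(x, x) ∧ b = s(x, y)) ∨ (a = s(x, y) ∧ b = s(x, x)) ∨
      ∃ z, a = s(x, y) ∧ b = s(x, z) ∧ (S.T x y z ∨ S.T x z y)) := by
  obtain ⟨c, x, y, z, hT, h1 | h1 | h1 | h1⟩ := h
  · exact ⟨x, y, (hS.T_adj hT).1, Or.inl ⟨h1.1, h1.2.1⟩⟩
  · exact ⟨x, z, (hS.T_adj hT).2.2.2.1, Or.inr (Or.inl ⟨h1.2.2, h1.1⟩)⟩
  · exact ⟨x, y, (hS.T_adj hT).1, Or.inr (Or.inr ⟨z, h1.2.1, h1.2.2, Or.inl hT⟩)⟩
  · exact ⟨y, x, (hS.T_adj hT).2.2.2.2.1, Or.inr (Or.inr ⟨z, by rw [h1.1]; exact Sym2.eq_swap,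
      h1.2.1, Or.inr (hS.rot _ _ _ hT)⟩)⟩

theorem sub_link (hS : S.Good) {a b b' : Sym2 S.V} (h : S.sub.Adj a b) (h' : S.sub.Adj a b') :
    Relation.ReflTransGen (fun p q => S.sub.T a p q) b b' := by
  obtain ⟨c, hc⟩ := h
  obtain ⟨c', hc'⟩ := h'
  obtain ⟨x, y, hxy, h1⟩ := sub_adj_cases hS ⟨c, hc⟩
  rcases h1 with ⟨rfl, rfl⟩ | h1
  · obtain ⟨y1, z1, ht1, hb1, -⟩ := (sub_T_diag hS).1 hc
    obtain ⟨y2, z2, ht2, hb2, -⟩ := (sub_T_diag hS).1 hc'
    rw [hb1, hb2]
    exact Relation.ReflTransGen.lift (p := fun p q => S.sub.T s(x, x) p q) (fun v => s(x, v))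
      (fun p q hpq => sub_mk1 hpq) _ _ (hS.link x y1 y2 ⟨z1, ht1⟩ ⟨z2, ht2⟩)
  · have ha : a = s(x, y) := by
      rcases h1 with h1 | ⟨z, h1, -⟩
      · exact h1.1
      · exact h1
    subst ha
    have hne : x ≠ y := hS.adj_ne hxy
    obtain ⟨z, hz⟩ := hxy
    obtain ⟨w, hw⟩ := hS.opp x y z hz
    have e1 : S.sub.T s(x, y) s(y, z) s(x, z) := by
      have := sub_mk4 hz
      rwa [Sym2.eq_swap (a := z) (b := x)] at this
    have e2 : S.sub.T s(x, y) s(x, z) s(x, x) := sub_mk3 hz
    have e3 : S.sub.T s(x, y) s(x, x) s(x, w) := sub_mk2 (hS.rot _ _ _ hw)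
    have e4 : S.sub.T s(x, y) s(x, w) s(y, w) := by
      have := sub_mk4 hw
      rwa [Sym2.eq_swap (a := y) (b := x), Sym2.eq_swap (a := w) (b := y)] at this
    have e5 : S.sub.T s(x, y) s(y, w) s(y, y) := by
      have := sub_mk3 hw
      rwa [Sym2.eq_swap (a := y) (b := x)] at this
    have e6 : S.sub.T s(x, y) s(y, y) s(y, z) := by
      have := sub_mk2 (hS.rot _ _ _ hz)
      rwa [Sym2.eq_swap (a := y) (b := x)] at this
    have r1 := Relation.ReflTransGen.single (r := fun p q => S.sub.T s(x, y) p q) e1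
    have r2 := Relation.ReflTransGen.single (r := fun p q => S.sub.T s(x, y) p q) e2
    have r3 := Relation.ReflTransGen.single (r := fun p q => S.sub.T s(x, y) p q) e3
    have r4 := Relation.ReflTransGen.single (r := fun p q => S.sub.T s(x, y) p q) e4
    have r5 := Relation.ReflTransGen.single (r := fun p q => S.sub.T s(x, y) p q) e5
    have r6 := Relation.ReflTransGen.single (r := fun p q => S.sub.T s(x, y) p q) e6
    have key : ∀ d : Sym2 S.V, S.sub.Adj s(x, y) d →
        Relation.ReflTransGen (fun p q => S.sub.T s(x, y) p q) d s(x, x) ∧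
        Relation.ReflTransGen (fun p q => S.sub.T s(x, y) p q) s(x, x) d := by
      have k1 : Relation.ReflTransGen (fun p q => S.sub.T s(x, y) p q) s(y, y) s(x, x) ∧
        Relation.ReflTransGen (fun p q => S.sub.T s(x, y) p q) s(x, x) s(y, y) :=
        ⟨r6.trans (r1.trans r2), r3.trans (r4.trans r5)⟩
      have k2 : Relation.ReflTransGen (fun p q => S.sub.T s(x, y) p q) s(x, z) s(x, x) ∧
        Relation.ReflTransGen (fun p q => S.sub.T s(x, y) p q) s(x, x) s(x, z) :=
        ⟨r2, k1.2.trans (r6.trans r1)⟩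
      have k3 : Relation.ReflTransGen (fun p q => S.sub.T s(x, y) p q) s(x, w) s(x, x) ∧
        Relation.ReflTransGen (fun p q => S.sub.T s(x, y) p q) s(x, x) s(x, w) :=
        ⟨r4.trans (r5.trans k1.1), r3⟩
      have k4 : Relation.ReflTransGen (fun p q => S.sub.T s(x, y) p q) s(y, w) s(x, x) ∧
        Relation.ReflTransGen (fun p q => S.sub.T s(x, y) p q) s(x, x) s(y, w) :=
        ⟨r5.trans k1.1, r3.trans r4⟩
      have k5 : Relation.ReflTransGen (fun p q => S.sub.T s(x, y) p q) s(y, z) s(x, x) ∧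
        Relation.ReflTransGen (fun p q => S.sub.T s(x, y) p q) s(x, x) s(y, z) :=
        ⟨r1.trans r2, k1.2.trans r6⟩
      intro d hd
      obtain ⟨u, v, huv, h2⟩ := sub_adj_cases hS hd
      rcases h2 with ⟨h2, -⟩ | ⟨h2, h3⟩ | ⟨t, h2, h3, h4⟩
      · exfalso
        rcases Sym2.eq_iff.1 h2 with h5 | h5
        · exact hne (h5.1.trans h5.2.symm)
        · exact hne (h5.1.trans h5.2.symm)
      · rcases Sym2.eq_iff.1 h2 with ⟨h5, h6⟩ | ⟨h5, h6⟩
        · subst h5; rw [h3]; exact ⟨Relation.ReflTransGen.refl, Relation.ReflTransGen.refl⟩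
        · subst h6; rw [h3]; exact k1
      · rcases Sym2.eq_iff.1 h2 with ⟨h5, h6⟩ | ⟨h5, h6⟩
        · subst h5 h6
          rcases h4 with h4 | h4
          · have := hS.uniq _ _ _ _ h4 hz
            rw [h3, this]; exact k2
          · have := hS.uniq _ _ _ _ (hS.rot _ _ _ (hS.rot _ _ _ h4)) hw
            rw [h3, this]; exact k3
        · subst h5 h6
          rcases h4 with h4 | h4
          · have := hS.uniq _ _ _ _ h4 hw
            rw [h3, this]; exact k4
          · have := hS.uniq _ _ _ _ (hS.rot _ _ _ (hS.rot _ _ _ h4)) hz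
            rw [h3, this]; exact k5
    exact (key b ⟨c, hc⟩).1.trans (key b' ⟨c', hc'⟩).2

theorem sub_exact (hS : S.Good) (A : Type) [AddCommGroup A] (α : Sym2 S.V → Sym2 S.V → A)
    (h : ∀ p q, α q p = -α p q)
    (h' : ∀ p q r, S.sub.T p q r → α p q + α q r + α r p = 0) :
    ∃ ψ : Sym2 S.V → A, ∀ p q, S.sub.Adj p q → α p q = ψ q - ψ p := by
  classical
  obtain ⟨φ, hφ⟩ := hS.exact A (fun x y => α s(x, x) s(x, y) + α s(x, y) s(y, y)) (by
    intro x y
    show α s(y, y) s(y, x) + α s(y, x) s(x, x) = -(α s(x, x) s(x, y) + α s(x, y) s(y, y))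
    rw [Sym2.eq_swap (a := y) (b := x), h s(x, y) s(y, y), h s(x, x) s(x, y)]
    abel) (by
    intro x y z hT
    show (α s(x, x) s(x, y) + α s(x, y) s(y, y)) + (α s(y, y) s(y, z) + α s(y, z) s(z, z)) +
      (α s(z, z) s(z, x) + α s(z, x) s(x, x)) = 0
    have h1 := h' _ _ _ (sub_mk1 hT)
    have h2 := h' _ _ _ (sub_mk1 (hS.rot _ _ _ hT))
    have h3 := h' _ _ _ (sub_mk1 (hS.rot _ _ _ (hS.rot _ _ _ hT)))
    have h4 := h' _ _ _ (sub_mk4 hT)
    rw [Sym2.eq_swap (a := x) (b := z)] at h1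
    rw [Sym2.eq_swap (a := y) (b := x)] at h2
    rw [Sym2.eq_swap (a := z) (b := y)] at h3
    have g1 := h s(x, y) s(z, x)
    have g2 := h s(x, y) s(y, z)
    have g3 := h s(y, z) s(z, x)
    rw [g1] at h4
    rw [g2] at h2
    rw [g3] at h3
    calc (α s(x, x) s(x, y) + α s(x, y) s(y, y)) + (α s(y, y) s(y, z) + α s(y, z) s(z, z)) +
      (α s(z, z) s(z, x) + α s(z, x) s(x, x))
        = (α s(x, x) s(x, y) + α s(x, y) s(z, x) + α s(z, x) s(x, x)) +
          (α s(y, y) s(y, z) + -α s(x, y) s(y, z) + α s(x, y) s(y, y)) +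
          (α s(z, z) s(z, x) + -α s(y, z) s(z, x) + α s(y, z) s(z, z)) +
          (α s(x, y) s(y, z) + α s(y, z) s(z, x) + -α s(x, y) s(z, x)) := by abel
      _ = 0 := by rw [h1, h2, h3, h4]; simp)
  have hφ' : ∀ x y, S.Adj x y →
      α s(x, x) s(x, y) + α s(x, y) s(y, y) = φ y - φ x := hφ
  let ψ : Sym2 S.V → A := fun e => if e.IsDiag then φ e.out.1 else
    φ e.out.1 + α s(e.out.1, e.out.1) e
  have hψ1 : ∀ x, ψ s(x, x) = φ x := by
    intro x
    have h1 : (s(x, x) : Sym2 S.V).IsDiag := Sym2.mk_isDiag_iff.2 rfl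
    have h2 : (s(x, x) : Sym2 S.V).out.1 = x := by
      have h3 := Sym2.out_fst_mem (s(x, x) : Sym2 S.V)
      simpa using h3
    show (if (s(x, x) : Sym2 S.V).IsDiag then _ else _) = _
    rw [if_pos h1, h2]
  have hψ2 : ∀ x y, S.Adj x y → ψ s(x, y) = φ x + α s(x, x) s(x, y) := by
    intro x y hxy
    have h1 : ¬ (s(x, y) : Sym2 S.V).IsDiag := fun h1 => hS.adj_ne hxy (Sym2.mk_isDiag_iff.1 h1)
    show (if (s(x, y) : Sym2 S.V).IsDiag then _ else _) = _
    rw [if_neg h1]
    have h3 := Sym2.out_fst_mem (s(x, y) : Sym2 S.V)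
    rcases Sym2.mem_iff.1 h3 with h4 | h4
    · rw [h4]
    · rw [h4]
      have h5 := hφ' x y hxy
      have h6 := h s(x, y) s(y, y)
      rw [h6]
      have h7 : φ y = φ x + (α s(x, x) s(x, y) + α s(x, y) s(y, y)) := by
        rw [h5]; abel
      rw [h7]; abel
  refine ⟨ψ, fun p q hpq => ?_⟩
  obtain ⟨x, y, hxy, h1⟩ := sub_adj_cases hS hpq
  rcases h1 with ⟨rfl, rfl⟩ | ⟨rfl, rfl⟩ | ⟨z, rfl, rfl, h1⟩
  · rw [hψ1, hψ2 x y hxy]; abel
  · rw [hψ1, hψ2 x y hxy, h s(x, x) s(x, y)]; abel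
  · have hxz : S.Adj x z := by
      rcases h1 with h1 | h1
      · exact (hS.T_adj h1).2.2.2.1
      · exact (hS.T_adj h1).1
    rw [hψ2 x y hxy, hψ2 x z hxz]
    rcases h1 with h1 | h1
    · have h2 := h' _ _ _ (sub_mk1 h1)
      have h3 := h s(x, x) s(x, z)
      rw [h3] at h2
      have h4 : α s(x, y) s(x, z) = α s(x, x) s(x, z) - α s(x, x) s(x, y) +
        (α s(x, x) s(x, y) + α s(x, y) s(x, z) + -α s(x, x) s(x, z)) := by abel
      rw [h2] at h4
      rw [h4]; abel
    · have h2 := h' _ _ _ (sub_mk1 h1)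
      have h3 := h s(x, x) s(x, y)
      rw [h3, h s(x, y) s(x, z)] at h2
      have h4 : α s(x, y) s(x, z) = α s(x, x) s(x, z) - α s(x, x) s(x, y) -
        (α s(x, x) s(x, z) + -α s(x, y) s(x, z) + -α s(x, x) s(x, y)) := by abel
      rw [h2] at h4
      rw [h4]; abel

theorem Good.sub (hS : S.Good) : S.sub.Good := by
  exact
    { rot := fun _ _ _ h => sub_rot hS h
      ne := fun _ _ _ h => sub_ne hS h
      uniq := fun _ _ _ _ h h' => sub_uniq hS h h'
      opp := fun _ _ _ h => sub_opp hS h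
      nd := fun _ _ _ h => sub_nd hS h
      link := fun _ _ _ h h' => sub_link hS h h'
      locfin := fun a => sub_locfin hS a
      exact := fun A _ α h h' => sub_exact hS A α h h' }

theorem Good.it (hS : S.Good) (k : ℕ) : (S.it k).Good := by
  induction k with
  | zero => exact hS
  | succ k ih => exact ih.sub

end Srf

end URW
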