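import Pool.Agent.URW.Srf.Chn

/-!
# URW Srf: the 2-chain near a vertex

Problem MP_fc0f29_gt; architect helper65. `F` is a 2-chain with boundary `w - w'`; `F x y` is its
coefficient at the triangle on the left of the edge from `x` to `y`.

PROOFS. `net_zero`: `cnt_zero` twice. `chn_swap`: `bd`. `chn_step`: `T g p q`: `F g p = F p q = F q g`
(`rot` for `T g p q` and `T p q g`), and `F q g = F g q` by `chn_swap`. `chn_const`: `net_zero` for all
edges at `g` (`left_mem`, `right_mem`), `link` and induction with `chn_step`. `chn_null`: let `b` be the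
cochain given by `NullAt`; `pair` for `Γ = {g}` (`¬ Adj g g` by `ne`) and `A = ℤ`:
`0 = wsum b w - wsum b w' = ∑ F g p.1 • (b g p.1 + b p.1 p.2 + b p.2 g)`; all coefficients `F g p.1` are equal to `c = F g y`
(`chn_const`), so `0 = c * ∑ (...) = c * ∑ᶠ b p.1 p.2` (`lk_sum`, `link_sum`), and the last sum is not `0`.
SECTORS: `w` is a walk without repetitions, `a, p, b` are consecutive in `w`, `p ∉ w'`.
`sec_left`: `btw_const` for `f = F p`, `u := b`, `v := a`: for `T p y z`, `z ≠ b`, `z ≠ a` we have `net w p z = 0`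
(`Nx.right_unique`, `Nx.left_unique`: the only edges of `w` at `p` are `a p` and `p b`) and `net w' p z = 0`
(`p ∉ w'`), so `F p z = F p y` by `chn_step`. `sec_right`: the same with `a` and `b` exchanged.
`sec_left'`: let `T p r a` (`exists_pred`); `F a p = F p r` (`rot` for `T a p r`); if `r = b` done, otherwise
`Btw p b a r` by `btw_pred` (`b ≠ a` by `Nx.ne'`), and `sec_left`. `sec_right'`: the same with `a` and `b`
exchanged. `sec_jump`: `F p b - F b p = net w p b - net w' p b = 1 - 0` (`cnt_one`, `Nx.asymm`, `cnt_zero`), and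
`F b p = F p a`.
-/

set_option autoImplicit false

namespace URW

namespace Srf

variable {S : Srf} {w w' : List S.V} {F : S.V → S.V → ℤ} {g p q a b y y' : S.V}

theorem net_zero {X : Type} {l : List X} {p q : X} (h : ¬ Nx l p q) (h' : ¬ Nx l q p) :
    net l p q = 0 := by
  unfold net
  rw [cnt_zero h, cnt_zero h', sub_zero]

theorem net_zero' {X : Type} {l : List X} {p q : X} (h : p ∉ l) : net l p q = 0 :=
  net_zero (fun h1 => h h1.left_mem) (fun h1 => h h1.right_mem)

theorem chn_swap (hF : S.Chn w w' F) (h : S.Adj p q) (hn : net w p q = 0) (hn' : net w' p q = 0) :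
    F p q = F q p := by
  have h1 := hF.bd p q h
  rw [hn, hn', sub_zero] at h1
  exact sub_eq_zero.1 h1

/-- the two triangles at an edge which is not in the boundary -/
theorem chn_step (hS : S.Good) (hF : S.Chn w w' F) (h : S.T g p q) (hn : net w g q = 0)
    (hn' : net w' g q = 0) : F g q = F g p := by
  rw [chn_swap hF (hS.T_adj h).2.2.2.1 hn hn', hF.rot g p q h, hF.rot p q g (hS.rot g p q h)]

theorem chn_const (hS : S.Good) (hF : S.Chn w w' F) (hw : g ∉ w) (hw' : g ∉ w') (hy : S.Adj g y)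
    (hy' : S.Adj g y') : F g y = F g y' := by
  have hl := hS.link g y y' hy hy'
  induction hl with
  | refl => rfl
  | @tail b c _ hbc ih =>
    rw [chn_step hS hF hbc (net_zero' hw) (net_zero' hw')]
    exact ih (hS.T_adj hbc).1

theorem chn_null (hS : S.Good) (hF : S.Chn w w' F) (h : S.NullAt g w w') (hy : S.Adj g y) :
    F g y = 0 := by
  obtain ⟨hw, hw', b, hb, hc, hne, heq⟩ := h
  have h1 := hF.pair ℤ b hb {g} (by
    intro x hx x' hx' hadj
    rw [Finset.mem_singleton] at hx hx'
    subst hx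
    subst hx'
    exact hS.adj_ne hadj rfl) (by
    intro x y z hT hx hy hz
    rw [Finset.mem_singleton] at hx hy hz
    exact hc x y z hT hx hy hz)
  rw [Finset.sum_singleton, heq, sub_self, lk_sum hS g] at h1
  have h2 : ∑ p ∈ (hS.lk_fin g).toFinset, F g p.1 • (b g p.1 + b p.1 p.2 + b p.2 g) =
      ∑ p ∈ (hS.lk_fin g).toFinset, F g y • (b g p.1 + b p.1 p.2 + b p.2 g) := by
    refine Finset.sum_congr rfl fun p hp => ?_
    have hp' : S.T g p.1 p.2 := by simpa using hp
    rw [chn_const hS hF hw hw' (hS.T_adj hp').1 hy]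
  rw [h2, ← Finset.smul_sum] at h1
  have h3 := link_sum hS g b hb
  rw [lk_sum hS g] at h3
  rw [h3, smul_eq_mul] at h1
  rcases mul_eq_zero.1 h1.symm with h4 | h4
  · exact h4
  · exact absurd h4 hne

theorem sec_left (hS : S.Good) (hF : S.Chn w w' F) (hn : w.Nodup) (hp : p ∉ w') (ha : Nx w a p)
    (hb : Nx w p b) (h : S.Btw p b a q) : F p q = F p b :=
  btw_const (F p) (fun _ _ hT h1 h2 => chn_step hS hF hT
    (net_zero (fun h3 => h1 (h3.right_unique hn hb)) (fun h3 => h2 (h3.left_unique hn ha)))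
    (net_zero' hp)) h

theorem sec_right (hS : S.Good) (hF : S.Chn w w' F) (hn : w.Nodup) (hp : p ∉ w') (ha : Nx w a p)
    (hb : Nx w p b) (h : S.Btw p a b q) : F p q = F p a :=
  btw_const (F p) (fun _ _ hT h1 h2 => chn_step hS hF hT
    (net_zero (fun h3 => h2 (h3.right_unique hn hb)) (fun h3 => h1 (h3.left_unique hn ha)))
    (net_zero' hp)) h

theorem sec_left' (hS : S.Good) (hF : S.Chn w w' F) (hw : S.Wlk w) (hn : w.Nodup) (hp : p ∉ w')
    (ha : Nx w a p) (hb : Nx w p b) : F a p = F p b := by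
  obtain ⟨r, hr⟩ := hS.exists_pred (hS.adj_symm (ha.chain hw))
  have h1 : S.T a p r := hS.rot _ _ _ (hS.rot _ _ _ hr)
  rw [hF.rot a p r h1]
  by_cases hrb : r = b
  · rw [hrb]
  · exact sec_left hS hF hn hp ha hb (btw_pred hS (hb.chain hw) (Nx.ne' hn ha hb).symm hr hrb)

theorem sec_right' (hS : S.Good) (hF : S.Chn w w' F) (hw : S.Wlk w) (hn : w.Nodup) (hp : p ∉ w')
    (ha : Nx w a p) (hb : Nx w p b) : F b p = F p a := by
  obtain ⟨r, hr⟩ := hS.exists_pred (hb.chain hw)
  have h1 : S.T b p r := hS.rot _ _ _ (hS.rot _ _ _ hr)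
  rw [hF.rot b p r h1]
  by_cases hra : r = a
  · rw [hra]
  · exact sec_right hS hF hn hp ha hb
      (btw_pred hS (hS.adj_symm (ha.chain hw)) (Nx.ne' hn ha hb) hr hra)

theorem sec_jump (hS : S.Good) (hF : S.Chn w w' F) (hw : S.Wlk w) (hn : w.Nodup) (hp : p ∉ w')
    (ha : Nx w a p) (hb : Nx w p b) : F p b = F p a + 1 := by
  have h1 := hF.bd p b (hb.chain hw)
  have h2 : net w p b = 1 := by
    unfold net
    rw [cnt_one hn hb, cnt_zero (hb.asymm hn), sub_zero]
  rw [h2, net_zero' hp, sec_right' hS hF hw hn hp ha hb] at h1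
  linarith

end Srf

end URW
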